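import Pool.Agent.TH728.EP.SecL

/-!
Almost all members of a linear system of plane curves have no integer point outside the base
points: the bounds and the covering.  The arguments are those of `Pool.Agent.H322R2.AsmB`, `AsmC`,
for an arbitrary additive subgroup with sufficiently many directions.
-/

open Polynomial Finset

namespace Pool.Agent.TH728.EP

open Pool.Agent.H322R2 hiding VB_real Dr Vo Vo_nonneg dir_concl Cv Cv_mono Cv_or Cv_le Cv_nonneg Cv_sum Cv_sw Vo_sw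

variable {d : ℕ}

section

variable {H : ℕ} {y : ℝ} (A : HY d H y) (hd : 4 ≤ d)

include A hd

lemma b2L (Λ : AddSubgroup (↥(Ix d) → ℤ)) {h : ℕ} (hh : 1 ≤ h) {R0 R1 : ↥(Ix d) → ℤ}
    {m : ℤ} (hm : m ≠ 0)
    (hR0 : Dr Λ h R0) (hR0' : ff R0 = C m) (hR1 : Dr Λ h R1) (hR1' : ff R1 = C m * X) :
    Cv Λ H (fun c : ↥(Ix d) → ℤ => ¬ T2c (2 * H) y c) ≤
      (405 * (h : ℝ) ^ 2 * 6 ^ (Ix d).card) / y * Vo Λ H := by
  have h5 := A.k5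
  unfold Cv Vo
  convert card_ex2L (d := d) (by omega) Λ hh hm hR0 hR0' hR1 hR1' (H := H) (y := y) (by linarith)
    (k_CL A.k0') (A.H2 hd)

lemma b3L (Λ : AddSubgroup (↥(Ix d) → ℤ)) {h : ℕ} (hh : 1 ≤ h) {R0 : ↥(Ix d) → ℤ}
    {m : ℤ} (hm : m ≠ 0) (hR0 : Dr Λ h R0) (hR0' : ff R0 = C m) :
    Cv Λ H (fun c : ↥(Ix d) → ℤ => ¬ T3c (y ^ (400 * d + 125))
      (y ^ (528 * d + 165) / y ^ (k0 d)) c) ≤ (5 * WW d h) / y * Vo Λ H := by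
  have hy0 := A.y0
  have hy1 := A.y1
  have h5 := A.k5
  have hH0 := A.H0 hd
  have hCL0 := CL_nonneg d
  have hEE : EE d = 10 ^ 4 * d := rfl
  have hB : y ^ (528 * d + 165) / y ^ (k0 d) = 1 / y ^ (2600 * d + 1) := by
    have : y ^ (k0 d) = y ^ (528 * d + 165) * y ^ (2600 * d + 1) := by
      rw [← pow_add]; congr 1; unfold k0; omega
    rw [this, ← div_div, div_self (by positivity)]
  have h1 := card_ex3L (d := d) (by omega) Λ hh hm hR0 hR0' (H := H) (A := y ^ (400 * d + 125))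
    (B := y ^ (528 * d + 165) / y ^ (k0 d)) (s := 1 / y ^ (1300 * d)) (one_le_pow₀ hy1)
    (by positivity) (by positivity) (by
      rw [div_le_one (by positivity)]; exact one_le_pow₀ hy1) (by
      rw [hB, one_div_pow, ← pow_mul, mul_one_div, div_lt_div_iff₀ (by positivity) (by positivity),
        one_mul]
      have : y ^ (2600 * d + 1) = y * y ^ (1300 * d * 2) := by rw [← pow_succ']; congr 1; ring
      rw [this]
      exact mul_lt_mul_of_pos_right (by linarith) (by positivity))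
  have h2 : 54 * (y ^ (400 * d + 125)) ^ 3 * (2 * (CL d * H * (1 / y ^ (1300 * d))) + 1)
      ≤ (5 / y) * H := by
    have e1 : (y ^ (400 * d + 125)) ^ 3 * (1 / y ^ (1300 * d)) ≤ 1 / y ^ 25 := by
      rw [mul_one_div, div_le_div_iff₀ (by positivity) (by positivity), ← pow_mul, ← pow_add,
        one_mul]
      exact pow_le_pow_right₀ hy1 (by omega)
    have e2 : 108 * CL d * (H * (1 / y ^ 25)) ≤ 2 / y * H := by
      have e3 : 108 * CL d * (1 / y ^ 25) ≤ 2 / y := by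
        rw [mul_one_div, div_le_div_iff₀ (by positivity) hy0]
        calc 108 * CL d * y ≤ 108 * y * y := by
              have := k_CL A.k0'
              gcongr
          _ = 108 * y ^ 2 := by ring
          _ ≤ (2 * y) * y ^ 2 := by
              apply mul_le_mul_of_nonneg_right _ (by positivity)
              linarith
          _ = 2 * y ^ 3 := by ring
          _ ≤ 2 * y ^ 25 := by
              apply mul_le_mul_of_nonneg_left _ (by norm_num)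
              exact pow_le_pow_right₀ hy1 (by norm_num)
      calc 108 * CL d * (H * (1 / y ^ 25)) = (108 * CL d * (1 / y ^ 25)) * H := by ring
        _ ≤ _ := mul_le_mul_of_nonneg_right e3 hH0.le
    have e4 : 54 * (y ^ (400 * d + 125)) ^ 3 ≤ 2 / y * H := by
      rw [div_mul_eq_mul_div, le_div_iff₀ hy0]
      calc 54 * (y ^ (400 * d + 125)) ^ 3 * y = 54 * y ^ (1200 * d + 376) := by
            rw [← pow_mul, mul_assoc, ← pow_succ]; congr 2; ring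
        _ ≤ y * y ^ (1200 * d + 376) := mul_le_mul_of_nonneg_right (by linarith) (by positivity)
        _ = y ^ (1200 * d + 377) := by rw [← pow_succ']
        _ ≤ H := A.hpow _ (by omega)
        _ ≤ 2 * H := by linarith
    calc 54 * (y ^ (400 * d + 125)) ^ 3 * (2 * (CL d * H * (1 / y ^ (1300 * d))) + 1)
        = 108 * CL d * (H * ((y ^ (400 * d + 125)) ^ 3 * (1 / y ^ (1300 * d)))) +
          54 * (y ^ (400 * d + 125)) ^ 3 := by ring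
      _ ≤ 108 * CL d * (H * (1 / y ^ 25)) + 54 * (y ^ (400 * d + 125)) ^ 3 := by
          gcongr
      _ ≤ 2 / y * H + 2 / y * H := add_le_add e2 e4
      _ = 4 / y * H := by ring
      _ ≤ _ := by
          apply mul_le_mul_of_nonneg_right _ hH0.le
          apply div_le_div_of_nonneg_right _ hy0.le
          norm_num
  have hV := Vo_nonneg Λ H
  have hW := WW_nonneg d h
  have h3 : Cv Λ H (fun c : ↥(Ix d) → ℤ => ¬ T3c (y ^ (400 * d + 125))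
    (y ^ (528 * d + 165) / y ^ (k0 d)) c) * H ≤ ((5 * WW d h) / y * Vo Λ H) * H := by
    refine le_trans (le_trans (le_of_eq ?_) h1) ?_
    · unfold Cv
      congr!
    · have e : ((VB Λ H).card : ℝ) = Vo Λ H := rfl
      rw [e]
      calc _ = (54 * (y ^ (400 * d + 125)) ^ 3 * (2 * (CL d * H * (1 / y ^ (1300 * d))) + 1)) *
            (WW d h * Vo Λ H) := by unfold WW; ring
        _ ≤ ((5 / y) * H) * (WW d h * Vo Λ H) :=
            mul_le_mul_of_nonneg_right h2 (by positivity)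
        _ = _ := by ring
  exact le_of_mul_le_mul_right h3 hH0

lemma b4L (Λ : AddSubgroup (↥(Ix d) → ℤ)) {h : ℕ} (hh : 1 ≤ h) {R2 : ↥(Ix d) → ℤ}
    {m : ℤ} (hm : m ≠ 0)
    (hR : Dr Λ h R2) (hR0 : ff R2 = 0) (hR1 : lead (d - 1) (PG R2) = 0)
    (hR2 : lead (d - 2) (PG R2) = C m) :
    Cv Λ H (fun c : ↥(Ix d) → ℤ => T2c (2 * H) y c ∧ ¬ T4c (2 * H) y c) ≤
      (3 * WW d h) / y * Vo Λ H := by
  have h100 := k_100 A.k0'
  have hd0 : (0 : ℝ) ≤ d := by positivity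
  unfold Cv WW
  convert card_ex4L (d := d) (by omega) Λ hh hR hR0 hR1 hm hR2 (H := H) (y := y) A.y1 (A.H2 hd)
    (by linarith)

lemma z0L (Λ : AddSubgroup (↥(Ix d) → ℤ)) {h : ℕ} (hh : 1 ≤ h) {R : ↥(Ix d) → ℤ}
    {m : ℤ} (hm : m ≠ 0) (hR : Dr Λ h R) (hR0 : ff R = C m * X ^ d) :
    Cv Λ H (fun c : ↥(Ix d) → ℤ => (ff c).natDegree ≠ d) ≤ (WW d h) / y * Vo Λ H := by
  apply fracV (K := 1) A.y0 (A.H0 hd) (WW_nonneg d h) (Vo_nonneg Λ H)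
  · unfold Cv WW
    convert cnt_Z0L (d := d) Λ hh hm hR hR0 H
  · rw [one_mul]
    have := A.hpow 1 (by unfold EE; omega)
    rwa [pow_one] at this

lemma z1L (Λ : AddSubgroup (↥(Ix d) → ℤ)) {h : ℕ} (hh : 1 ≤ h)
    {m : ℤ} (hm : m ≠ 0) {R : Fin (d + 1) → ↥(Ix d) → ℤ} (hR : ∀ k, Dr Λ h (R k))
    (hR0 : ∀ k, ff (R k) = C m * X ^ (k : ℕ)) :
    Cv Λ H (fun c : ↥(Ix d) → ℤ => (ff c).natDegree = d ∧
      ¬ Irreducible ((ff c).map (Int.castRingHom ℚ))) ≤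
      ((h : ℝ) ^ (d + 1) * (2 * (d + 2)) ^ (Ix d).card) / y * Vo Λ H := by
  have hy0 := A.y0
  have hy1 := A.y1
  have hH1' : 1 ≤ H := by exact_mod_cast A.H1 hd
  have hlog := logt_nonneg d
  have p4 : (0 : ℝ) ≤ (EE d : ℕ) := Nat.cast_nonneg _
  unfold Cv
  convert cnt_redL (d := d) (by omega) Λ hh hm hR hR0 (H := H) (y := y) hy1 hH1' (by
      have hX1 : 1 ≤ 2 ^ d * (d + 1) * H :=
        Nat.mul_pos (Nat.mul_pos (by positivity) (by omega)) hH1'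
      refine (hs2_le _ hX1).trans ?_
      push_cast
      rw [Real.log_mul (by positivity) (by positivity), ← A.hyH, Real.log_pow]
      have h1 : Real.log y ≤ y := (Real.log_le_sub_one_of_pos hy0).trans (by linarith)
      have h2 : (EE d : ℝ) * Real.log y ≤ (EE d : ℝ) * y := mul_le_mul_of_nonneg_left h1 p4
      have h3 : 3 + 2 * Real.log (2 ^ d * (d + 1)) ≤ (3 + 2 * Real.log (2 ^ d * (d + 1))) * y :=
        le_mul_of_one_le_right (by linarith) hy1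
      calc 3 + 2 * (Real.log (2 ^ d * (d + 1)) + (EE d : ℝ) * Real.log y)
          = (3 + 2 * Real.log (2 ^ d * (d + 1))) + 2 * ((EE d : ℝ) * Real.log y) := by ring
        _ ≤ (3 + 2 * Real.log (2 ^ d * (d + 1))) * y + 2 * ((EE d : ℝ) * y) := by linarith
        _ = (3 + 2 * Real.log (2 ^ d * (d + 1)) + 2 * (EE d : ℕ)) * y := by ring
        _ ≤ y * y := mul_le_mul_of_nonneg_right A.k4 hy0.le
        _ = y ^ 2 := by ring) A.k3 (A.hpow _ (by unfold EE; omega))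

lemma saL (Λ : AddSubgroup (↥(Ix d) → ℤ)) {h : ℕ} (hh : 1 ≤ h) {R : ↥(Ix d) → ℤ}
    (hR : Dr Λ h R) (m : ℕ) (hm : m = ⌊y ^ (k0 d)⌋₊) :
    Cv Λ H (fun c : ↥(Ix d) → ℤ => True ∧ ∃ p : ℤ × ℤ, ((|p.1| ≤ m ∧ |p.2| ≤ m) ∧
      ev p.1 p.2 (PG R) ≠ 0) ∧ ev p.1 p.2 (PG c) = 0) ≤ (WW d h) / y * Vo Λ H := by
  have hy0 := A.y0
  have hy1 := A.y1
  have h5 := A.k5
  have hH0 := A.H0 hd
  apply fracV (K := (((2 * m + 1) ^ 2 : ℕ) : ℝ)) A.y0 (A.H0 hd) (WW_nonneg d h) (Vo_nonneg Λ H)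
  · unfold Cv WW
    convert cnt_smallL (d := d) hh hR H m
  · have h1 : (m : ℝ) ≤ y ^ (k0 d) := by rw [hm]; exact Nat.floor_le (by positivity)
    have h2 : 1 ≤ y ^ (k0 d) := one_le_pow₀ hy1
    push_cast
    calc (2 * (m : ℝ) + 1) ^ 2 * y ≤ (3 * y ^ (k0 d)) ^ 2 * y := by
          apply mul_le_mul_of_nonneg_right _ hy0.le
          apply pow_le_pow_left₀ (by positivity)
          linarith
      _ = 9 * y ^ (2 * k0 d + 1) := by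
          have e : y ^ (2 * k0 d + 1) = (y ^ (k0 d)) ^ 2 * y := by
            rw [← pow_mul, mul_comm (k0 d) 2, ← pow_succ]
          rw [e]; ring
      _ ≤ y * y ^ (2 * k0 d + 1) := mul_le_mul_of_nonneg_right (by linarith) (by positivity)
      _ = y ^ (2 * k0 d + 2) := by rw [← pow_succ']
      _ ≤ H := A.hpow _ (by unfold k0 EE; omega)

lemma sbL (Λ : AddSubgroup (↥(Ix d) → ℤ)) {h : ℕ} (hh : 1 ≤ h) {R : ↥(Ix d) → ℤ}
    (hR : Dr Λ h R) (hRT : TD (d - 4) (PG R)) (n : ℕ) (hn : n + 1 = (EE d + 1) * kC d) :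
    Cv Λ H (fun c : ↥(Ix d) → ℤ => Typ (2 * H) y c ∧ ∃ p : ℤ × ℤ,
      ((|(p.2 : ℝ)| ≤ |(p.1 : ℝ)| ∧
      y ^ (k0 d) ≤ |(p.1 : ℝ)| ∧ |(p.1 : ℝ)| ≤ y ^ (k0 d) * y ^ (n + 1)) ∧
      ev p.1 p.2 (PG R) ≠ 0) ∧ ev p.1 p.2 (PG c) = 0) ≤ (WW d h) / y * Vo Λ H := by
  have hy0 := A.y0
  apply fracV (K := ((4 * (n + 1) * d : ℕ) : ℝ)) A.y0 (A.H0 hd) (WW_nonneg d h) (Vo_nonneg Λ H)
  · unfold Cv WW
    convert cnt_midL (d := d) hd hh hR hRT (H := H) (y := y) A.k0' (A.H2 hd) n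
  · rw [hn]
    exact (mul_le_mul_of_nonneg_right A.k1 hy0.le).trans (A.hyy hd)

lemma scL (Λ : AddSubgroup (↥(Ix d) → ℤ)) {h : ℕ} (hh : 1 ≤ h) {R : ↥(Ix d) → ℤ}
    (hR : Dr Λ h R) (hRT : TD (d - 4) (PG R)) :
    Cv Λ H (fun c : ↥(Ix d) → ℤ => (Typ (2 * H) y c ∧ Typ (2 * H) y (sw c) ∧
      (ff c).natDegree = d ∧ Irreducible ((ff c).map (Int.castRingHom ℚ))) ∧ ∃ p : ℤ × ℤ,
      ((((d + 1) * ((Ix d).card * (4 * H))) ^ (kC d) < max p.2.natAbs p.1.natAbs) ∧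
      ev p.1 p.2 (PG R) ≠ 0) ∧ ev p.1 p.2 (PG c) = 0) ≤ (WW d h) / y * Vo Λ H := by
  have hy0 := A.y0
  apply fracV (K := ((kN d : ℕ) : ℝ)) A.y0 (A.H0 hd) (WW_nonneg d h) (Vo_nonneg Λ H)
  · unfold Cv WW
    convert cnt_largeL (d := d) hd hh hR hRT (H := H) (y := y) hy0
  · exact (mul_le_mul_of_nonneg_right A.k2 hy0.le).trans (A.hyy hd)

end

/-- directions and separating polynomials -/
structure DDL (Λ : AddSubgroup (↥(Ix d) → ℤ)) (S : Set (ℤ × ℤ)) (h : ℕ) (m0 : ℤ)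
    (Rd : Fin (d + 1) → ↥(Ix d) → ℤ) (R2 : ↥(Ix d) → ℤ) (RR : Finset (↥(Ix d) → ℤ)) : Prop where
  hk : ∀ k, Dr Λ h (Rd k)
  hk' : ∀ k, ff (Rd k) = C m0 * X ^ (k : ℕ)
  h2 : Dr Λ h R2
  h20 : ff R2 = 0
  h21 : lead (d - 1) (PG R2) = 0
  h22 : lead (d - 2) (PG R2) = C m0
  hs : ∀ R ∈ RR, Dr Λ h R ∧ TD (d - 4) (PG R)
  hsep : ∀ Q : ℤ × ℤ, Q ∉ S → ∃ R ∈ RR, ev Q.1 Q.2 (PG R) ≠ 0

theorem main_countL (hd : 4 ≤ d) (Λ : AddSubgroup (↥(Ix d) → ℤ)) (S : Set (ℤ × ℤ)) {h : ℕ}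
    (hh : 1 ≤ h) {m0 m0' : ℤ} (hm0 : m0 ≠ 0) (hm0' : m0' ≠ 0)
    {Rd Rd' : Fin (d + 1) → ↥(Ix d) → ℤ} {R2 R2' : ↥(Ix d) → ℤ} {RR RR' : Finset (↥(Ix d) → ℤ)}
    (D : DDL Λ S h m0 Rd R2 RR) (D' : DDL (swG Λ) {q | (q.2, q.1) ∈ S} h m0' Rd' R2' RR')
    {H : ℕ} {y : ℝ} (hyH : y ^ (EE d) = H) (hyK : K1 d ≤ y) :
    Cv Λ H (fun c : ↥(Ix d) → ℤ => ∃ p : ℤ × ℤ, p ∉ S ∧ ev p.1 p.2 (PG c) = 0)
      ≤ KV d h RR.card RR'.card / y * Vo Λ H := by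
  classical
  have A := HY_of hyH hyK
  obtain ⟨Λ', hΛ'⟩ : ∃ Λ', Λ' = swG Λ := ⟨_, rfl⟩
  rw [← hΛ'] at D'
  obtain ⟨Vc, hVc⟩ : ∃ Vc : ℝ, Vc = Vo Λ H := ⟨_, rfl⟩
  have hVc0 : 0 ≤ Vc := by rw [hVc]; exact Vo_nonneg Λ H
  have hVc' : Vo Λ' H = Vc := by rw [hΛ', Vo_sw, hVc]
  obtain ⟨m, hm⟩ : ∃ m : ℕ, m = ⌊y ^ (k0 d)⌋₊ := ⟨_, rfl⟩
  have hkC1 : 1 ≤ kC d := by
    show 0 < kC d
    unfold kC; positivity
  obtain ⟨n, hn⟩ : ∃ n, n + 1 = (EE d + 1) * kC d := by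
    refine ⟨(EE d + 1) * kC d - 1, ?_⟩
    have : 1 ≤ (EE d + 1) * kC d := Nat.mul_pos (by omega) hkC1
    omega
  have hXr := XrV A hd n hn
  -- directions
  obtain ⟨i0, hi0⟩ : ∃ i0 : Fin (d + 1), i0 = ⟨0, by omega⟩ := ⟨_, rfl⟩
  obtain ⟨i1, hi1⟩ : ∃ i1 : Fin (d + 1), i1 = ⟨1, by omega⟩ := ⟨_, rfl⟩
  obtain ⟨id', hid⟩ : ∃ id' : Fin (d + 1), id' = ⟨d, by omega⟩ := ⟨_, rfl⟩
  have f0 : ff (Rd i0) = C m0 := by rw [D.hk', hi0]; simp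
  have f1 : ff (Rd i1) = C m0 * X := by rw [D.hk', hi1]; simp
  have f0' : ff (Rd' i0) = C m0' := by rw [D'.hk', hi0]; simp
  have f1' : ff (Rd' i1) = C m0' * X := by rw [D'.hk', hi1]; simp
  have fd : ff (Rd id') = C m0 * X ^ d := by rw [D.hk', hid]
  -- bounds
  have b2 := b2L A hd Λ hh hm0 (D.hk i0) f0 (D.hk i1) f1
  have b2' := b2L A hd Λ' hh hm0' (D'.hk i0) f0' (D'.hk i1) f1'
  have b3 := b3L A hd Λ hh hm0 (D.hk i0) f0
  have b3' := b3L A hd Λ' hh hm0' (D'.hk i0) f0'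
  have b4 := b4L A hd Λ hh hm0 D.h2 D.h20 D.h21 D.h22
  have b4' := b4L A hd Λ' hh hm0' D'.h2 D'.h20 D'.h21 D'.h22
  have z0 := z0L A hd Λ hh hm0 (D.hk id') fd
  have z1 := z1L A hd Λ hh hm0 D.hk D.hk'
  have sa := fun (R : ↥(Ix d) → ℤ) (hR : R ∈ RR) => saL A hd Λ hh (D.hs R hR).1 m hm
  have sb := fun (R : ↥(Ix d) → ℤ) (hR : R ∈ RR) => sbL A hd Λ hh (D.hs R hR).1 (D.hs R hR).2 n hn
  have sb' := fun (R : ↥(Ix d) → ℤ) (hR : R ∈ RR') =>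
    sbL A hd Λ' hh (D'.hs R hR).1 (D'.hs R hR).2 n hn
  have sc := fun (R : ↥(Ix d) → ℤ) (hR : R ∈ RR) => scL A hd Λ hh (D.hs R hR).1 (D.hs R hR).2
  -- names
  obtain ⟨P2, hP2⟩ : ∃ P2 : (↥(Ix d) → ℤ) → Prop, P2 = fun c => ¬ T2c (2 * H) y c := ⟨_, rfl⟩
  obtain ⟨P3, hP3⟩ : ∃ P3 : (↥(Ix d) → ℤ) → Prop, P3 = fun c => ¬ T3c (y ^ (400 * d + 125))
      (y ^ (528 * d + 165) / y ^ (k0 d)) c := ⟨_, rfl⟩
  obtain ⟨P4, hP4⟩ : ∃ P4 : (↥(Ix d) → ℤ) → Prop, P4 = fun c => T2c (2 * H) y c ∧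
      ¬ T4c (2 * H) y c := ⟨_, rfl⟩
  obtain ⟨Z0, hZ0⟩ : ∃ Z0 : (↥(Ix d) → ℤ) → Prop, Z0 = fun c => (ff c).natDegree ≠ d := ⟨_, rfl⟩
  obtain ⟨Z1, hZ1⟩ : ∃ Z1 : (↥(Ix d) → ℤ) → Prop, Z1 = fun c => (ff c).natDegree = d ∧
      ¬ Irreducible ((ff c).map (Int.castRingHom ℚ)) := ⟨_, rfl⟩
  obtain ⟨SA, hSA⟩ : ∃ SA : (↥(Ix d) → ℤ) → (↥(Ix d) → ℤ) → Prop, SA = fun R c => True ∧
      ∃ p : ℤ × ℤ, ((|p.1| ≤ m ∧ |p.2| ≤ m) ∧
      ev p.1 p.2 (PG R) ≠ 0) ∧ ev p.1 p.2 (PG c) = 0 := ⟨_, rfl⟩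
  obtain ⟨SB, hSB⟩ : ∃ SB : (↥(Ix d) → ℤ) → (↥(Ix d) → ℤ) → Prop, SB = fun R c =>
      Typ (2 * H) y c ∧ ∃ p : ℤ × ℤ, ((|(p.2 : ℝ)| ≤ |(p.1 : ℝ)| ∧
      y ^ (k0 d) ≤ |(p.1 : ℝ)| ∧ |(p.1 : ℝ)| ≤ y ^ (k0 d) * y ^ (n + 1)) ∧
      ev p.1 p.2 (PG R) ≠ 0) ∧ ev p.1 p.2 (PG c) = 0 := ⟨_, rfl⟩
  obtain ⟨SC, hSC⟩ : ∃ SC : (↥(Ix d) → ℤ) → (↥(Ix d) → ℤ) → Prop, SC = fun R c =>
      (Typ (2 * H) y c ∧ Typ (2 * H) y (sw c) ∧
      (ff c).natDegree = d ∧ Irreducible ((ff c).map (Int.castRingHom ℚ))) ∧ ∃ p : ℤ × ℤ,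
      ((((d + 1) * ((Ix d).card * (4 * H))) ^ (kC d) < max p.2.natAbs p.1.natAbs) ∧
      ev p.1 p.2 (PG R) ≠ 0) ∧ ev p.1 p.2 (PG c) = 0 := ⟨_, rfl⟩
  rw [← hP2, ← hVc] at b2
  rw [← hP2, hVc', hΛ', ← Cv_sw] at b2'
  rw [← hP3, ← hVc] at b3
  rw [← hP3, hVc', hΛ', ← Cv_sw] at b3'
  rw [← hP4, ← hVc] at b4
  rw [← hP4, hVc', hΛ', ← Cv_sw] at b4'
  rw [← hZ0, ← hVc] at z0
  rw [← hZ1, ← hVc] at z1
  have sa2 : ∀ R ∈ RR, Cv Λ H (SA R) ≤ WW d h / y * Vc := by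
    intro R hR
    rw [hSA, hVc]
    exact sa R hR
  have sb2 : ∀ R ∈ RR, Cv Λ H (SB R) ≤ WW d h / y * Vc := by
    intro R hR
    rw [hSB, hVc]
    exact sb R hR
  have sc2 : ∀ R ∈ RR, Cv Λ H (SC R) ≤ WW d h / y * Vc := by
    intro R hR
    rw [hSC, hVc]
    exact sc R hR
  have sb2' : ∀ R ∈ RR', Cv Λ H (fun c => SB R (sw c)) ≤ WW d h / y * Vc := by
    intro R hR
    rw [Cv_sw, ← hΛ', hSB, ← hVc']
    exact sb' R hR
  have sum1 : ∀ (s : Finset (↥(Ix d) → ℤ)) (P : (↥(Ix d) → ℤ) → (↥(Ix d) → ℤ) → Prop),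
      (∀ R ∈ s, Cv Λ H (P R) ≤ WW d h / y * Vc) →
      Cv Λ H (fun c => ∃ R ∈ s, P R c) ≤ s.card * (WW d h / y * Vc) := by
    intro s P hP
    refine (Cv_sum s P).trans ?_
    refine (Finset.sum_le_card_nsmul _ _ _ hP).trans ?_
    rw [nsmul_eq_mul]
  have ua := sum1 RR SA sa2
  have ub := sum1 RR SB sb2
  have uc := sum1 RR SC sc2
  have ub' := sum1 RR' (fun R c => SB R (sw c)) sb2'
  obtain ⟨UA, hUA⟩ : ∃ UA : (↥(Ix d) → ℤ) → Prop, UA = fun c => ∃ R ∈ RR, SA R c := ⟨_, rfl⟩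
  obtain ⟨UB, hUB⟩ : ∃ UB : (↥(Ix d) → ℤ) → Prop, UB = fun c => ∃ R ∈ RR, SB R c := ⟨_, rfl⟩
  obtain ⟨UC, hUC⟩ : ∃ UC : (↥(Ix d) → ℤ) → Prop, UC = fun c => ∃ R ∈ RR, SC R c := ⟨_, rfl⟩
  obtain ⟨UB', hUB'⟩ : ∃ UB' : (↥(Ix d) → ℤ) → Prop, UB' = fun c => ∃ R ∈ RR', SB R (sw c) :=
    ⟨_, rfl⟩
  rw [← hUA] at ua
  rw [← hUB] at ub
  rw [← hUC] at uc
  rw [← hUB'] at ub'
  have hcov : ∀ c ∈ VB Λ H, (∃ p : ℤ × ℤ, p ∉ S ∧ ev p.1 p.2 (PG c) = 0) →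
      (P2 c ∨ P3 c ∨ P4 c ∨ P2 (sw c) ∨ P3 (sw c) ∨ P4 (sw c) ∨ Z0 c ∨ Z1 c ∨ UA c ∨ UB c ∨
        UB' c ∨ UC c) := by
    rintro c hc ⟨p, hpS, hp⟩
    by_cases q2 : P2 c; · left; exact q2
    by_cases q3 : P3 c; · right; left; exact q3
    by_cases q4 : P4 c; · right; right; left; exact q4
    by_cases q2' : P2 (sw c); · right; right; right; left; exact q2'
    by_cases q3' : P3 (sw c); · right; right; right; right; left; exact q3'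
    by_cases q4' : P4 (sw c); · right; right; right; right; right; left; exact q4'
    by_cases r0 : Z0 c; · right; right; right; right; right; right; left; exact r0
    by_cases r1 : Z1 c; · right; right; right; right; right; right; right; left; exact r1
    have hT2 : T2c (2 * H) y c := by rw [hP2] at q2; exact not_not.1 q2
    have hT3 : T3c (y ^ (400 * d + 125)) (y ^ (528 * d + 165) / y ^ (k0 d)) c := by
      rw [hP3] at q3; exact not_not.1 q3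
    have hT4 : T4c (2 * H) y c := by
      by_contra hcon
      apply q4
      rw [hP4]
      exact ⟨hT2, hcon⟩
    have hT2' : T2c (2 * H) y (sw c) := by rw [hP2] at q2'; exact not_not.1 q2'
    have hT3' : T3c (y ^ (400 * d + 125)) (y ^ (528 * d + 165) / y ^ (k0 d)) (sw c) := by
      rw [hP3] at q3'; exact not_not.1 q3'
    have hT4' : T4c (2 * H) y (sw c) := by
      by_contra hcon
      apply q4'
      rw [hP4]
      exact ⟨hT2', hcon⟩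
    have hdeg : (ff c).natDegree = d := by rw [hZ0] at r0; exact not_not.1 r0
    have hirr : Irreducible ((ff c).map (Int.castRingHom ℚ)) := by
      by_contra hcon
      apply r1
      rw [hZ1]
      exact ⟨hdeg, hcon⟩
    have hty : Typ (2 * H) y c := ⟨hT2, hT3, hT4⟩
    have hty' : Typ (2 * H) y (sw c) := ⟨hT2', hT3', hT4'⟩
    obtain ⟨R, hR, hRp⟩ := D.hsep p hpS
    obtain ⟨R', hR', hRp'⟩ := D'.hsep (p.2, p.1) hpS
    right; right; right; right; right; right; right; right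
    by_cases hbig : ((d + 1) * ((Ix d).card * (4 * H))) ^ (kC d) < max p.2.natAbs p.1.natAbs
    · right; right; right
      rw [hUC]
      refine ⟨R, hR, ?_⟩
      rw [hSC]
      exact ⟨⟨hty, hty', hdeg, hirr⟩, p, ⟨hbig, hRp⟩, hp⟩
    push Not at hbig
    by_cases hsm : |p.1| ≤ m ∧ |p.2| ≤ m
    · left
      rw [hUA]
      refine ⟨R, hR, ?_⟩
      rw [hSA]
      exact ⟨trivial, p, ⟨hsm, hRp⟩, hp⟩
    right
    have hb1 : |(p.1 : ℝ)| ≤ y ^ (k0 d) * y ^ (n + 1) := by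
      refine le_trans ?_ hXr
      have h1 := (le_max_right p.2.natAbs p.1.natAbs).trans hbig
      have h2 : ((p.1.natAbs : ℕ) : ℝ) ≤
          ((((d + 1) * ((Ix d).card * (4 * H))) ^ (kC d) : ℕ) : ℝ) := by
        exact_mod_cast h1
      rwa [Nat.cast_natAbs, Int.cast_abs] at h2
    have hb2 : |(p.2 : ℝ)| ≤ y ^ (k0 d) * y ^ (n + 1) := by
      refine le_trans ?_ hXr
      have h1 := (le_max_left p.2.natAbs p.1.natAbs).trans hbig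
      have h2 : ((p.2.natAbs : ℕ) : ℝ) ≤
          ((((d + 1) * ((Ix d).card * (4 * H))) ^ (kC d) : ℕ) : ℝ) := by
        exact_mod_cast h1
      rwa [Nat.cast_natAbs, Int.cast_abs] at h2
    have hlow : ∀ z : ℤ, (m : ℤ) < |z| → y ^ (k0 d) ≤ |(z : ℝ)| := by
      intro z hz
      have h1 := Nat.lt_floor_add_one (y ^ (k0 d))
      rw [← hm] at h1
      have h2 : (m : ℤ) + 1 ≤ |z| := hz
      have h3 : (((m : ℤ) + 1 : ℤ) : ℝ) ≤ ((|z| : ℤ) : ℝ) := by exact_mod_cast h2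
      rw [Int.cast_abs] at h3
      push_cast at h3
      linarith
    rcases le_total |p.2| |p.1| with hle | hle
    · left
      rw [hUB]
      refine ⟨R, hR, ?_⟩
      rw [hSB]
      refine ⟨hty, p, ⟨⟨by exact_mod_cast hle, ?_, hb1⟩, hRp⟩, hp⟩
      apply hlow
      by_contra hcon
      push Not at hcon
      exact hsm ⟨hcon, hle.trans hcon⟩
    · right; left
      rw [hUB']
      refine ⟨R', hR', ?_⟩
      rw [hSB]
      refine ⟨hty', (p.2, p.1), ⟨⟨by exact_mod_cast hle, ?_, hb2⟩, hRp'⟩, ?_⟩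
      · apply hlow
        by_contra hcon
        push Not at hcon
        exact hsm ⟨hle.trans hcon, hcon⟩
      · rw [ev_sw]
        exact hp
  refine (Cv_mono hcov).trans ?_
  have u1 := Cv_or (Λ := Λ) (H := H) P2 (fun c => P3 c ∨ P4 c ∨ P2 (sw c) ∨ P3 (sw c) ∨ P4 (sw c) ∨
    Z0 c ∨ Z1 c ∨ UA c ∨ UB c ∨ UB' c ∨ UC c)
  have u2 := Cv_or (Λ := Λ) (H := H) P3 (fun c => P4 c ∨ P2 (sw c) ∨ P3 (sw c) ∨ P4 (sw c) ∨ Z0 c ∨
    Z1 c ∨ UA c ∨ UB c ∨ UB' c ∨ UC c)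
  have u3 := Cv_or (Λ := Λ) (H := H) P4 (fun c => P2 (sw c) ∨ P3 (sw c) ∨ P4 (sw c) ∨ Z0 c ∨
    Z1 c ∨ UA c ∨ UB c ∨ UB' c ∨ UC c)
  have u4 := Cv_or (Λ := Λ) (H := H) (fun c => P2 (sw c)) (fun c => P3 (sw c) ∨ P4 (sw c) ∨ Z0 c ∨
    Z1 c ∨ UA c ∨ UB c ∨ UB' c ∨ UC c)
  have u5 := Cv_or (Λ := Λ) (H := H) (fun c => P3 (sw c)) (fun c => P4 (sw c) ∨ Z0 c ∨
    Z1 c ∨ UA c ∨ UB c ∨ UB' c ∨ UC c)
  have u6 := Cv_or (Λ := Λ) (H := H) (fun c => P4 (sw c)) (fun c => Z0 c ∨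
    Z1 c ∨ UA c ∨ UB c ∨ UB' c ∨ UC c)
  have u7 := Cv_or (Λ := Λ) (H := H) Z0 (fun c => Z1 c ∨ UA c ∨ UB c ∨ UB' c ∨ UC c)
  have u8 := Cv_or (Λ := Λ) (H := H) Z1 (fun c => UA c ∨ UB c ∨ UB' c ∨ UC c)
  have u9 := Cv_or (Λ := Λ) (H := H) UA (fun c => UB c ∨ UB' c ∨ UC c)
  have u10 := Cv_or (Λ := Λ) (H := H) UB (fun c => UB' c ∨ UC c)
  have u11 := Cv_or (Λ := Λ) (H := H) UB' UC
  rw [← hVc]
  obtain ⟨W, hW⟩ : ∃ W, W = WW d h := ⟨_, rfl⟩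
  obtain ⟨B2, hB2⟩ : ∃ B2, B2 = 405 * (h : ℝ) ^ 2 * 6 ^ (Ix d).card := ⟨_, rfl⟩
  obtain ⟨B3, hB3⟩ : ∃ B3, B3 = (h : ℝ) ^ (d + 1) * (2 * (d + 2)) ^ (Ix d).card := ⟨_, rfl⟩
  have hfin : KV d h RR.card RR'.card / y * Vc = B2 / y * Vc + (5 * W / y * Vc + (3 * W / y * Vc +
      (B2 / y * Vc + (5 * W / y * Vc + (3 * W / y * Vc + (W / y * Vc + (B3 / y * Vc +
      ((RR.card * (W / y * Vc)) + (RR.card * (W / y * Vc) + (RR'.card * (W / y * Vc) +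
      RR.card * (W / y * Vc))))))))))) := by
    unfold KV
    rw [← hW, ← hB2, ← hB3]
    ring
  rw [hfin]
  rw [← hB2] at b2 b2'
  rw [← hW] at b3 b3' b4 b4' z0 ua ub uc ub'
  rw [← hB3] at z1
  linarith

end Pool.Agent.TH728.EP
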