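import Pool.Agent.TH728.EP.VecL

/-!
Cosets of a linear system: a coset some multiple of which lies in the system.
-/

open Polynomial Finset

namespace Pool.Agent.TH728.EP

open Pool.Agent.H322R2 hiding VB_real Dr Vo Vo_nonneg dir_concl Cv Cv_mono Cv_or Cv_le Cv_nonneg Cv_sum Cv_sw Vo_sw

variable {d : ℕ}

open Classical in
/-- the vectors of a coset in a box -/
noncomputable def CB (Λ : AddSubgroup (↥(Ix d) → ℤ)) (c0 : ↥(Ix d) → ℤ) (H : ℕ) :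
    Finset (↥(Ix d) → ℤ) := (Bx ↥(Ix d) H).filter (fun c => c - c0 ∈ Λ)

lemma mem_CB {Λ : AddSubgroup (↥(Ix d) → ℤ)} {c0 c : ↥(Ix d) → ℤ} {H : ℕ} :
    c ∈ CB Λ c0 H ↔ c ∈ Bx ↥(Ix d) H ∧ c - c0 ∈ Λ := by
  classical
  unfold CB
  rw [Finset.mem_filter]

lemma card_VB_le_CB (Λ : AddSubgroup (↥(Ix d) → ℤ)) (c0 : ↥(Ix d) → ℤ) {H H' M : ℕ}
    (hM : ∀ i, |c0 i| ≤ (M : ℤ)) (hH : H' + M ≤ H) : (VB Λ H').card ≤ (CB Λ c0 H).card := by
  apply Finset.card_le_card_of_injOn (fun c => c + c0)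
  · intro c hc
    rw [Finset.mem_coe, mem_VB, mem_Bx] at hc
    rw [Finset.mem_coe, mem_CB, mem_Bx]
    refine ⟨?_, by simpa using hc.2⟩
    intro i
    have h1 := hc.1 i
    have h2 := hM i
    have h3 : |(c + c0) i| ≤ |c i| + |c0 i| := abs_add_le _ _
    have h4 : ((H' : ℤ)) + M ≤ H := by exact_mod_cast hH
    linarith
  · intro a _ b _ hab
    simpa using hab

lemma card_VB_sup (Λ Λ' : AddSubgroup (↥(Ix d) → ℤ)) (c0 : ↥(Ix d) → ℤ) {N : ℕ} (hN : 1 ≤ N)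
    (hc0 : N • c0 ∈ Λ) (hΛ' : ∀ c ∈ Λ', ∃ j : ℤ, c - j • c0 ∈ Λ) (H : ℕ) :
    (VB Λ' H).card ≤ (VB Λ (2 * H)).card * N := by
  classical
  have hsel : ∀ c ∈ Λ', ∃ j : ℕ, j < N ∧ c - j • c0 ∈ Λ := by
    intro c hc
    obtain ⟨j, hj⟩ := hΛ' c hc
    have hN0 : (N : ℤ) ≠ 0 := by exact_mod_cast (by omega : N ≠ 0)
    refine ⟨(j % N).toNat, ?_, ?_⟩
    · have h1 := Int.emod_lt_of_pos j (show (0 : ℤ) < N by exact_mod_cast hN)
      have h2 := Int.emod_nonneg j hN0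
      omega
    · have h2 := Int.emod_nonneg j hN0
      have h3 : ((j % N).toNat : ℤ) = j - N * (j / N) := by
        rw [Int.toNat_of_nonneg h2, Int.emod_def]
      have h4 : c - ((j % N).toNat) • c0 = (c - j • c0) + (j / N) • (N • c0) := by
        rw [← natCast_zsmul c0 ((j % N).toNat), h3, sub_smul, mul_comm, mul_smul,
          natCast_zsmul]
        abel
      rw [h4]
      exact Λ.add_mem hj (Λ.zsmul_mem hc0 _)
  choose! f hf1 hf2 using hsel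
  have h1 := Finset.card_le_mul_card_image_of_maps_to (s := VB Λ' H) (t := Finset.range N) (f := f)
    (fun c hc => Finset.mem_range.2 (hf1 c (mem_VB.1 hc).2)) ((VB Λ (2 * H)).card) (by
    intro j _
    rcases Finset.eq_empty_or_nonempty ((VB Λ' H).filter (fun c => f c = j)) with h0 | ⟨c1, hc1⟩
    · rw [h0]; simp
    · rw [Finset.mem_filter, mem_VB, mem_Bx] at hc1
      apply Finset.card_le_card_of_injOn (fun c => c - c1)
      · intro c hc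
        rw [Finset.mem_coe, Finset.mem_filter, mem_VB, mem_Bx] at hc
        rw [Finset.mem_coe, mem_VB, mem_Bx]
        constructor
        · intro i
          have e1 := hc.1.1 i
          have e2 := hc1.1.1 i
          have e3 : |(c - c1) i| ≤ |c i| + |c1 i| := abs_sub _ _
          push_cast
          linarith
        · have e1 := hf2 c hc.1.2
          have e2 := hf2 c1 hc1.1.2
          rw [hc.2] at e1
          rw [hc1.2] at e2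
          have e3 : c - c1 = (c - j • c0) - (c1 - j • c0) := by abel
          show c - c1 ∈ Λ
          rw [e3]
          exact Λ.sub_mem e1 e2
      · intro a _ b _ hab
        simpa using hab)
  rwa [Finset.card_range] at h1

/-- number of vectors of a coset with a property -/
theorem coset_main (hd : 4 ≤ d) (Λ : AddSubgroup (↥(Ix d) → ℤ))
    (h1 : ∀ k : Fin (d + 1), ∃ R ∈ Λ, ∃ m : ℤ, m ≠ 0 ∧ ff R = C m * X ^ (k : ℕ))
    (h2 : ∃ R ∈ Λ, ∃ m : ℤ, m ≠ 0 ∧ TD (d - 2) (PG R) ∧ lead (d - 2) (PG R) = C m)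
    (h2' : ∃ R ∈ swG Λ, ∃ m : ℤ, m ≠ 0 ∧ TD (d - 2) (PG R) ∧ lead (d - 2) (PG R) = C m)
    (c0 : ↥(Ix d) → ℤ) {N : ℕ} (hN : 1 ≤ N) (hc0 : N • c0 ∈ Λ) :
    ∃ (K : ℝ) (H0 : ℕ), 0 ≤ K ∧ ∀ H : ℕ, H0 ≤ H → ∀ T : Finset (↥(Ix d) → ℤ),
      (∀ c ∈ T, c ∈ CB Λ c0 H ∧ ∃ p : ℤ × ℤ, p ∉ Bs Λ ∧ ev p.1 p.2 (PG c) = 0) →
      (T.card : ℝ) ≤ K * (H : ℝ) ^ (-(1 / (10 ^ 4 * (d : ℝ)))) * (CB Λ c0 H).card := by
  classical
  obtain ⟨Λ', hΛ'⟩ : ∃ Λ', Λ' = Λ ⊔ AddSubgroup.zmultiples c0 := ⟨_, rfl⟩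
  have hle : Λ ≤ Λ' := by rw [hΛ']; exact le_sup_left
  have hc0' : c0 ∈ Λ' := by
    rw [hΛ']
    exact (le_sup_right : AddSubgroup.zmultiples c0 ≤ _) (AddSubgroup.mem_zmultiples c0)
  have hsel : ∀ c ∈ Λ', ∃ j : ℤ, c - j • c0 ∈ Λ := by
    intro c hc
    rw [hΛ', AddSubgroup.mem_sup] at hc
    obtain ⟨a, ha, b, hb, rfl⟩ := hc
    obtain ⟨j, rfl⟩ := AddSubgroup.mem_zmultiples_iff.1 hb
    exact ⟨j, by simpa using ha⟩
  obtain ⟨K, hK0, hK⟩ := vec_mainL hd Λ'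
    (fun k => by
      obtain ⟨R, hR, h⟩ := h1 k
      exact ⟨R, hle hR, h⟩)
    (by obtain ⟨R, hR, h⟩ := h2; exact ⟨R, hle hR, h⟩)
    (by obtain ⟨R, hR, h⟩ := h2'; exact ⟨R, hle hR, h⟩)
  obtain ⟨M, hM⟩ : ∃ M : ℕ, M = ht c0 := ⟨_, rfl⟩
  refine ⟨K * (16 ^ (Ix d).card * N), 8 + 2 * M, by positivity, ?_⟩
  intro H hH T hT
  have hBs : Bs Λ' ⊆ Bs Λ := fun p hp R hR hTD => hp R (hle hR) hTD
  have e1 : (T.card : ℝ) ≤ Cv Λ' H (fun c : ↥(Ix d) → ℤ => ∃ p : ℤ × ℤ, p ∉ Bs Λ' ∧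
      ev p.1 p.2 (PG c) = 0) := by
    unfold Cv
    have : T.card ≤ ((VB Λ' H).filter (fun c : ↥(Ix d) → ℤ => ∃ p : ℤ × ℤ, p ∉ Bs Λ' ∧
      ev p.1 p.2 (PG c) = 0)).card := by
      apply Finset.card_le_card
      intro c hc
      obtain ⟨hc1, p, hp1, hp2⟩ := hT c hc
      rw [mem_CB] at hc1
      rw [Finset.mem_filter, mem_VB]
      refine ⟨⟨hc1.1, ?_⟩, p, fun h => hp1 (hBs h), hp2⟩
      have h3 := Λ'.add_mem (hle hc1.2) hc0'
      simpa using h3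
    convert (show ((T.card : ℕ) : ℝ) ≤ ((((VB Λ' H).filter (fun c : ↥(Ix d) → ℤ => ∃ p : ℤ × ℤ,
      p ∉ Bs Λ' ∧ ev p.1 p.2 (PG c) = 0)).card : ℕ) : ℝ) by exact_mod_cast this)
  have e2 := hK H (by omega)
  have e3 : Vo Λ' H ≤ 16 ^ (Ix d).card * N * (CB Λ c0 H).card := by
    have f1 : (VB Λ' H).card ≤ (VB Λ' (8 * (H / 4))).card :=
      Finset.card_le_card (VB_mono Λ' (by omega))
    have f2 := card_VB_mul Λ' (H / 4) 8 (by norm_num)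
    rw [Fintype.card_coe] at f2
    have f3 := card_VB_sup Λ Λ' c0 hN hc0 hsel (H / 4)
    have f4 := card_VB_le_CB Λ c0 (H := H) (H' := 2 * (H / 4)) (M := M)
      (by intro i; rw [hM]; exact le_ht _ i) (by omega)
    have f5 : (VB Λ' H).card ≤ 16 ^ (Ix d).card * N * (CB Λ c0 H).card := by
      calc (VB Λ' H).card ≤ (VB Λ' (H / 4)).card * (2 * 8) ^ (Ix d).card := f1.trans f2
        _ ≤ ((CB Λ c0 H).card * N) * (2 * 8) ^ (Ix d).card :=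
            Nat.mul_le_mul_right _ (f3.trans (Nat.mul_le_mul_right _ f4))
        _ = 16 ^ (Ix d).card * N * (CB Λ c0 H).card := by norm_num; ring
    unfold Vo
    exact_mod_cast f5
  have hHp : (0 : ℝ) ≤ (H : ℝ) ^ (-(1 / (10 ^ 4 * (d : ℝ)))) :=
    Real.rpow_nonneg (Nat.cast_nonneg _) _
  calc (T.card : ℝ) ≤ _ := e1
    _ ≤ K * (H : ℝ) ^ (-(1 / (10 ^ 4 * (d : ℝ)))) * Vo Λ' H := e2
    _ ≤ K * (H : ℝ) ^ (-(1 / (10 ^ 4 * (d : ℝ)))) * (16 ^ (Ix d).card * N * (CB Λ c0 H).card) :=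
        mul_le_mul_of_nonneg_left e3 (mul_nonneg hK0 hHp)
    _ = _ := by ring

end Pool.Agent.TH728.EP
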