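import Pool.Agent.H322R2.AsmE

/-!
Exceptional polynomials in a linear system of plane curves.  The arguments are those of
`Pool.Agent.H322R2.ExcV`, `ExcW` (where the linear system consists of the polynomials vanishing at
prescribed integer points), written for an arbitrary additive subgroup of the coefficient vectors
and for directions whose leading coefficients are nonzero integers (instead of `1`).
-/

open Polynomial Finset

namespace Pool.Agent.TH728.EP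

open Pool.Agent.H322R2 hiding VB_real Dr Vo Vo_nonneg dir_concl

variable {d : ℕ}

/-- an interval of a progression -/
lemma card_intervalM (T : Finset ℤ) (α M : ℝ) {m : ℤ} (hm : m ≠ 0) (hM : 0 ≤ M)
    (h : ∀ t ∈ T, |α - m * t| ≤ M) : (T.card : ℝ) ≤ 2 * M + 1 := by
  have hmR : (m : ℝ) ≠ 0 := by exact_mod_cast hm
  have hm1 : 1 ≤ |(m : ℝ)| := by
    have : 1 ≤ |m| := Int.one_le_abs hm
    exact_mod_cast this
  have h1 := card_interval T α (-m) M (neg_ne_zero.2 hmR) hM (by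
    intro t ht
    have e : α + -(m : ℝ) * t = α - m * t := by ring
    rw [e]; exact h t ht)
  rw [abs_neg] at h1
  have h2 : 2 * M / |(m : ℝ)| ≤ 2 * M := div_le_self (by linarith) hm1
  linarith


/-- a direction of height at most `h` -/
def Dr (Λ : AddSubgroup (↥(Ix d) → ℤ)) (h : ℕ) (R : ↥(Ix d) → ℤ) : Prop :=
  R ∈ Λ ∧ ∀ i, |R i| ≤ (h : ℤ)

lemma VB_realL (Λ : AddSubgroup (↥(Ix d) → ℤ)) (H L : ℕ) (hL : 1 ≤ L) :
    ((VB Λ (L * H)).card : ℝ) ≤ (2 * (L : ℝ)) ^ (Ix d).card * (VB Λ H).card := by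
  have h1 := card_VB_mul Λ H L hL
  rw [Fintype.card_coe] at h1
  have h2 : ((VB Λ (L * H)).card : ℝ)
      ≤ (VB Λ H).card * (2 * (L : ℝ)) ^ (Ix d).card := by exact_mod_cast h1
  linarith

open Classical in
theorem card_ex2L (hd : 2 ≤ d) (Λ : AddSubgroup (↥(Ix d) → ℤ)) {h : ℕ} (hh : 1 ≤ h) {R0 R1 : ↥(Ix d) → ℤ}
    {m : ℤ} (hm : m ≠ 0)
    (hR0 : Dr Λ h R0) (hR0' : ff R0 = C m) (hR1 : Dr Λ h R1) (hR1' : ff R1 = C m * X)
    {H : ℕ} {y : ℝ} (hy : 5 ≤ y) (hyC : CL d ≤ y) (hyH : y ^ 2 ≤ H) :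
    (((VB Λ H).filter (fun c => ¬ T2c (2 * H) y c)).card : ℝ)
      ≤ (405 * (h : ℝ) ^ 2 * 6 ^ (Ix d).card) / y * (VB Λ H).card := by
  have hy0 : 0 < y := by linarith
  have hH0 : (0 : ℝ) < H := lt_of_lt_of_le (by positivity) hyH
  have hh0 : (1 : ℝ) ≤ h := by exact_mod_cast hh
  have hCL : 1 ≤ CL d := by
    unfold CL
    have h1 := one_le_NN d
    have h2 : (1 : ℝ) ≤ (d : ℝ) ^ 2 := one_le_pow₀ (by exact_mod_cast (by omega : 1 ≤ d))
    exact one_le_mul_of_one_le_of_one_le (one_le_mul_of_one_le_of_one_le h1 h2)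
      (one_le_pow₀ (by norm_num))
  have hCL0 : 0 < CL d := by linarith
  obtain ⟨ρ, hρ⟩ : ∃ ρ : ℝ, ρ = 1 / (CL d * y ^ 2) := ⟨_, rfl⟩
  have hρ0 : 0 < ρ := by rw [hρ]; positivity
  have hρ1 : ρ ≤ 1 := by
    rw [hρ, div_le_one (by positivity)]
    have : 1 ≤ y ^ 2 := by nlinarith
    nlinarith
  obtain ⟨n0, hn0⟩ : ∃ n0 : ℕ, n0 = ⌈2 * CL d * y ^ 2⌉₊ + 1 := ⟨_, rfl⟩
  obtain ⟨M, hM⟩ : ∃ M : ℝ, M = 4 * (H / y ^ 2) := ⟨_, rfl⟩
  have hM0 : 0 ≤ M := by rw [hM]; positivity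
  obtain ⟨T, hT⟩ : ∃ T : ℕ, T = H / h := ⟨_, rfl⟩
  obtain ⟨hT1, hT2⟩ := T_fact (H := H) hh
  rw [← hT] at hT1 hT2
  obtain ⟨S1, hS1⟩ : ∃ S1 : ℤ → Finset (↥(Ix d) → ℤ), S1 = fun k : ℤ =>
    (VB Λ (2 * H)).filter (fun c => |evf (k * ρ) (derivative (ff c))| ≤ M) := ⟨_, rfl⟩
  obtain ⟨S2, hS2⟩ : ∃ S2 : ℤ → Finset (↥(Ix d) → ℤ), S2 = fun k : ℤ =>
    (VB Λ H).filter
    (fun c => |evf (k * ρ) (ff c)| ≤ M ∧ |evf (k * ρ) (derivative (ff c))| ≤ M) := ⟨_, rfl⟩
  have c1 : ∀ k, ((S1 k).card : ℝ) * (2 * T + 1) ≤ (2 * M + 1) * (VB Λ (3 * H)).card := by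
    intro k
    apply rel_dir (S1 k) (VB Λ (3 * H)) R1 T
    · intro c hc t ht
      rw [hS1, Finset.mem_filter] at hc
      exact smul_add_mem_VB hc.1 hR1.1 hR1.2 (by omega) ht
    · intro c hc
      exact card_intervalM ((Icc (-(T : ℤ)) T).filter (fun t => c - t • R1 ∈ S1 k))
        (evf (k * ρ) (derivative (ff c))) M hm hM0 (by
        intro t ht
        rw [Finset.mem_filter, hS1, Finset.mem_filter] at ht
        obtain ⟨_, _, ht2⟩ := ht
        rw [ff_sub_smul, hR1', derivative_sub, ← mul_assoc, ← C_mul, derivative_C_mul_X, map_sub,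
          evf_C] at ht2
        push_cast at ht2
        have e : evf ((k : ℝ) * ρ) (derivative (ff c)) - m * t
            = evf ((k : ℝ) * ρ) (derivative (ff c)) - t * m := by ring
        rw [e]; exact ht2)
  have c2 : ∀ k, ((S2 k).card : ℝ) * (2 * T + 1) ≤ (2 * M + 1) * (S1 k).card := by
    intro k
    apply rel_dir (S2 k) (S1 k) R0 T
    · intro c hc t ht
      rw [hS2, Finset.mem_filter] at hc
      rw [hS1, Finset.mem_filter]
      refine ⟨smul_add_mem_VB hc.1 hR0.1 hR0.2 (by omega) ht, ?_⟩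
      rw [ff_add_smul, hR0', ← C_mul, derivative_add, derivative_C, add_zero]
      exact hc.2.2
    · intro c hc
      exact card_intervalM ((Icc (-(T : ℤ)) T).filter (fun t => c - t • R0 ∈ S2 k))
        (evf (k * ρ) (ff c)) M hm hM0 (by
        intro t ht
        rw [Finset.mem_filter, hS2, Finset.mem_filter] at ht
        obtain ⟨_, _, ht2, _⟩ := ht
        rw [ff_sub_smul, hR0', ← C_mul, map_sub, evf_C] at ht2
        push_cast at ht2
        have e : evf ((k : ℝ) * ρ) (ff c) - m * t = evf ((k : ℝ) * ρ) (ff c) - t * m := by ring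
        rw [e]; exact ht2)
  obtain ⟨Vc, hVc⟩ : ∃ Vc : ℝ, Vc = (VB Λ H).card := ⟨_, rfl⟩
  have hVc0 : 0 ≤ Vc := by rw [hVc]; positivity
  have hV3 := VB_realL (d := d) Λ H 3 (by norm_num)
  rw [← hVc] at hV3 ⊢
  obtain ⟨N, hN⟩ : ∃ N, N = (Ix d).card := ⟨_, rfl⟩
  rw [← hN] at hV3 ⊢
  have hV3' : ((VB Λ (3 * H)).card : ℝ) ≤ 6 ^ N * Vc := by
    refine hV3.trans (le_of_eq ?_)
    norm_num
  have hM5 : 2 * M + 1 ≤ 9 * (H / y ^ 2) := by
    rw [hM]
    have : 1 ≤ (H : ℝ) / y ^ 2 := by rw [le_div_iff₀ (by positivity)]; linarith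
    linarith
  have c3 : ∀ k, ((S2 k).card : ℝ) ≤ 81 * (h : ℝ) ^ 2 * 6 ^ N / y ^ 4 * Vc := by
    intro k
    have e1 := c1 k
    have e2 := c2 k
    have hT0 : (0 : ℝ) < 2 * T + 1 := by positivity
    have e3 : ((S2 k).card : ℝ) * (2 * T + 1) ^ 2 ≤ (9 * (H / y ^ 2)) ^ 2 * (6 ^ N * Vc) := by
      calc ((S2 k).card : ℝ) * (2 * T + 1) ^ 2 = ((S2 k).card : ℝ) * (2 * T + 1) * (2 * T + 1) := by
            ring
        _ ≤ (2 * M + 1) * (S1 k).card * (2 * T + 1) :=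
            mul_le_mul_of_nonneg_right e2 (by positivity)
        _ = (2 * M + 1) * ((S1 k).card * (2 * T + 1)) := by ring
        _ ≤ (2 * M + 1) * ((2 * M + 1) * (VB Λ (3 * H)).card) :=
            mul_le_mul_of_nonneg_left e1 (by linarith)
        _ ≤ (2 * M + 1) * ((2 * M + 1) * (6 ^ N * Vc)) := by gcongr
        _ = (2 * M + 1) ^ 2 * (6 ^ N * Vc) := by ring
        _ ≤ _ := by
            apply mul_le_mul_of_nonneg_right _ (by positivity)
            exact pow_le_pow_left₀ (by linarith) hM5 2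
    have e4 : ((S2 k).card : ℝ) * (H : ℝ) ^ 2 ≤ (h : ℝ) ^ 2 * (((S2 k).card : ℝ) * (2 * T + 1) ^ 2) := by
      have e5 : (H : ℝ) ^ 2 ≤ (h * (2 * T + 1)) ^ 2 := pow_le_pow_left₀ hH0.le hT2 2
      calc ((S2 k).card : ℝ) * (H : ℝ) ^ 2 ≤ ((S2 k).card : ℝ) * (h * (2 * T + 1)) ^ 2 :=
            mul_le_mul_of_nonneg_left e5 (Nat.cast_nonneg _)
        _ = _ := by ring
    have e5 : ((S2 k).card : ℝ) * (H : ℝ) ^ 2
        ≤ (81 * (h : ℝ) ^ 2 * 6 ^ N / y ^ 4 * Vc) * (H : ℝ) ^ 2 := by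
      refine (e4.trans (mul_le_mul_of_nonneg_left e3 (by positivity))).trans (le_of_eq ?_)
      field_simp
      ring
    exact le_of_mul_le_mul_right e5 (by positivity)
  have hsub : (VB Λ H).filter (fun c => ¬ T2c (2 * H) y c) ⊆
      (Icc (-(n0 : ℤ)) n0).biUnion S2 := by
    intro c hc
    rw [Finset.mem_filter] at hc
    obtain ⟨hc1, hc2⟩ := hc
    unfold T2c at hc2
    push Not at hc2
    obtain ⟨t, ht, h1, h2⟩ := hc2
    push_cast at h1 h2
    obtain ⟨k, hk⟩ : ∃ k, k = round (t / ρ) := ⟨_, rfl⟩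
    have hkt : |t - k * ρ| ≤ ρ := by
      have h3 := abs_sub_round (t / ρ)
      rw [← hk] at h3
      have h4 : t - k * ρ = (t / ρ - k) * ρ := by field_simp
      rw [h4, abs_mul, abs_of_pos hρ0]
      nlinarith
    have hkρ : |(k : ℝ) * ρ| ≤ 3 := by
      have h4 : (k : ℝ) * ρ = t - (t - k * ρ) := by ring
      rw [h4]
      exact (abs_sub _ _).trans (by linarith)
    rw [Finset.mem_biUnion]
    refine ⟨k, ?_, ?_⟩
    · have h3 : |(k : ℝ)| ≤ n0 := by
        have h5 : |(k : ℝ)| * ρ ≤ 2 + ρ := by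
          have h4 : (k : ℝ) * ρ = t - (t - k * ρ) := by ring
          have h6 : |(k : ℝ)| * ρ = |(k : ℝ) * ρ| := by rw [abs_mul, abs_of_pos hρ0]
          rw [h6, h4]
          exact (abs_sub _ _).trans (by linarith)
        have h6 : |(k : ℝ)| ≤ 2 * CL d * y ^ 2 + 1 := by
          have h7 : |(k : ℝ)| ≤ (2 + ρ) / ρ := by rw [le_div_iff₀ hρ0]; exact h5
          have h8 : (2 + ρ) / ρ = 2 * CL d * y ^ 2 + 1 := by rw [hρ]; field_simp
          rwa [h8] at h7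
        rw [hn0]
        push_cast
        have := Nat.le_ceil (2 * CL d * y ^ 2)
        linarith
      rw [Finset.mem_Icc]
      have h4 : |k| ≤ (n0 : ℤ) := by exact_mod_cast h3
      exact abs_le.1 h4
    · rw [hS2, Finset.mem_filter]
      have hcB := VB_sub_Bx _ _ hc1
      have ht3 : |t| ≤ 3 := by linarith
      have hlip : CL d * H * |(k : ℝ) * ρ - t| ≤ H / y ^ 2 := by
        rw [abs_sub_comm]
        calc CL d * H * |t - (k : ℝ) * ρ| ≤ CL d * H * ρ :=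
              mul_le_mul_of_nonneg_left hkt (by positivity)
          _ = H / y ^ 2 := by rw [hρ]; field_simp
      have hHy : 0 ≤ (H : ℝ) / y ^ 2 := by positivity
      have h2H : 2 * (H : ℝ) / y ^ 2 = 2 * (H / y ^ 2) := by ring
      rw [h2H] at h1 h2
      refine ⟨hc1, ?_, ?_⟩
      · have h3 := (ff_lip (by omega) hcB hkρ ht3).trans hlip
        have h4 : evf ((k : ℝ) * ρ) (ff c) = (evf ((k : ℝ) * ρ) (ff c) - evf t (ff c))
          + evf t (ff c) := by ring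
        rw [h4, hM]
        exact (abs_add_le _ _).trans (by linarith)
      · have h3 := (dff_lip hcB hkρ ht3).trans hlip
        have h4 : evf ((k : ℝ) * ρ) (derivative (ff c)) = (evf ((k : ℝ) * ρ) (derivative (ff c))
          - evf t (derivative (ff c))) + evf t (derivative (ff c)) := by ring
        rw [h4, hM]
        exact (abs_add_le _ _).trans (by linarith)
  have h1 : (((VB Λ H).filter (fun c => ¬ T2c (2 * H) y c)).card : ℝ)
      ≤ (((Icc (-(n0 : ℤ)) n0).biUnion S2).card : ℝ) := by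
    exact_mod_cast Finset.card_le_card hsub
  have h2 := card_biUnion_real (Icc (-(n0 : ℤ)) n0) S2 _ (fun k _ => c3 k)
  refine h1.trans (h2.trans ?_)
  rw [card_Icc_H]
  have h3 : ((2 * n0 + 1 : ℕ) : ℝ) ≤ 5 * y ^ 3 := by
    push_cast
    have h4 : (n0 : ℝ) ≤ 2 * CL d * y ^ 2 + 2 := by
      rw [hn0]; push_cast
      have := Nat.ceil_lt_add_one (show 0 ≤ 2 * CL d * y ^ 2 by positivity)
      linarith
    have h5 : CL d * y ^ 2 ≤ y ^ 3 := by
      calc CL d * y ^ 2 ≤ y * y ^ 2 := mul_le_mul_of_nonneg_right hyC (by positivity)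
        _ = y ^ 3 := by ring
    have h6 : 5 ≤ y ^ 3 := by
      have : 1 ≤ y ^ 2 := by nlinarith
      nlinarith
    nlinarith
  calc ((2 * n0 + 1 : ℕ) : ℝ) * (81 * (h : ℝ) ^ 2 * 6 ^ N / y ^ 4 * Vc)
      ≤ 5 * y ^ 3 * (81 * (h : ℝ) ^ 2 * 6 ^ N / y ^ 4 * Vc) :=
        mul_le_mul_of_nonneg_right h3 (by positivity)
    _ = _ := by field_simp; ring

open Classical in
theorem card_ex3L (hd : 2 ≤ d) (Λ : AddSubgroup (↥(Ix d) → ℤ)) {h : ℕ} (hh : 1 ≤ h) {R0 : ↥(Ix d) → ℤ}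
    {m : ℤ} (hm : m ≠ 0) (hR0 : Dr Λ h R0) (hR0' : ff R0 = C m)
    {H : ℕ} {A B s : ℝ} (hA : 1 ≤ A) (hB : 0 ≤ B) (hs0 : 0 < s)
    (hs1 : s ≤ 1) (hs : 12 * B < s ^ 2) :
    (((VB Λ H).filter (fun c => ¬ T3c A B c)).card : ℝ) * H
      ≤ 54 * A ^ 3 * (h * 4 ^ (Ix d).card) * (2 * (CL d * H * s) + 1) * (VB Λ H).card := by
  obtain ⟨n, hn⟩ : ∃ n : ℕ, n = ⌊A⌋₊ := ⟨_, rfl⟩
  have hnA : (n : ℝ) ≤ A := by rw [hn]; exact Nat.floor_le (by linarith)
  have hex : ∀ V : ℤ × ℤ × ℤ, ∃ u : Bool → ℝ, (∀ i, |u i| ≤ 2) ∧ ((V.1 ≠ 0 ∨ V.2.1 ≠ 0 ∨ V.2.2 ≠ 0) →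
      ∀ t : ℝ, |t| ≤ 2 → |(V.1 : ℝ) + V.2.1 * t + V.2.2 * t ^ 2| ≤ B → ∃ i, |t - u i| ≤ s) := by
    intro V
    by_cases h0 : (V.1 ≠ 0 ∨ V.2.1 ≠ 0 ∨ V.2.2 ≠ 0)
    · obtain ⟨u1, u2, h1, h2, h3⟩ := quad_cover V.1 V.2.1 V.2.2 h0 hB hs0 hs1 hs
      refine ⟨fun i => if i then u1 else u2, ?_, ?_⟩
      · intro i; cases i
        · simpa using h2
        · simpa using h1
      · intro _ t ht hV
        rcases h3 t ht hV with h | h
        · exact ⟨true, by simpa using h⟩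
        · exact ⟨false, by simpa using h⟩
    · exact ⟨fun _ => 0, by simp, fun h => absurd h h0⟩
  choose u hu1 hu2 using hex
  obtain ⟨M, hM⟩ : ∃ M : ℝ, M = CL d * H * s := ⟨_, rfl⟩
  have hCL : 0 ≤ CL d := by unfold CL; have := NN_nonneg (d := d); positivity
  have hM0 : 0 ≤ M := by rw [hM]; positivity
  obtain ⟨T, hT⟩ : ∃ T : ℕ, T = H / h := ⟨_, rfl⟩
  obtain ⟨hT1, hT2⟩ := T_fact (H := H) hh
  rw [← hT] at hT1 hT2
  obtain ⟨Z, hZ⟩ : ∃ Z : (ℤ × ℤ × ℤ) × Bool → Finset (↥(Ix d) → ℤ), Z = fun V : (ℤ × ℤ × ℤ) × Bool =>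
    (VB Λ H).filter (fun c => |evf (u V.1 V.2) (ff c)| ≤ M) := ⟨_, rfl⟩
  obtain ⟨Vc, hVc⟩ : ∃ Vc : ℝ, Vc = (VB Λ H).card := ⟨_, rfl⟩
  have hVc0 : 0 ≤ Vc := by rw [hVc]; positivity
  have hV2 := VB_realL (d := d) Λ H 2 (by norm_num)
  rw [← hVc] at hV2 ⊢
  obtain ⟨N, hN⟩ : ∃ N, N = (Ix d).card := ⟨_, rfl⟩
  rw [← hN] at hV2 ⊢
  have hV2' : ((VB Λ (2 * H)).card : ℝ) ≤ 4 ^ N * Vc := by
    refine hV2.trans (le_of_eq ?_)
    norm_num
  have c1 : ∀ V, ((Z V).card : ℝ) * H ≤ h * ((2 * M + 1) * (4 ^ N * Vc)) := by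
    intro V
    have h0 : ((Z V).card : ℝ) * (2 * T + 1) ≤ (2 * M + 1) * (VB Λ (2 * H)).card := by
      apply rel_dir (Z V) (VB Λ (2 * H)) R0 T
      · intro c hc t ht
        rw [hZ, Finset.mem_filter] at hc
        exact smul_add_mem_VB hc.1 hR0.1 hR0.2 (by omega) ht
      · intro c hc
        exact card_intervalM ((Icc (-(T : ℤ)) T).filter (fun t => c - t • R0 ∈ Z V))
          (evf (u V.1 V.2) (ff c)) M hm hM0 (by
          intro t ht
          rw [Finset.mem_filter, hZ, Finset.mem_filter] at ht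
          obtain ⟨_, _, ht2⟩ := ht
          rw [ff_sub_smul, hR0', ← C_mul, map_sub, evf_C] at ht2
          push_cast at ht2
          have e : evf (u V.1 V.2) (ff c) - m * t = evf (u V.1 V.2) (ff c) - t * m := by ring
          rw [e]; exact ht2)
    calc ((Z V).card : ℝ) * H ≤ (Z V).card * (h * (2 * T + 1)) :=
          mul_le_mul_of_nonneg_left hT2 (Nat.cast_nonneg _)
      _ = h * ((Z V).card * (2 * T + 1)) := by ring
      _ ≤ h * ((2 * M + 1) * (VB Λ (2 * H)).card) :=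
          mul_le_mul_of_nonneg_left h0 (Nat.cast_nonneg _)
      _ ≤ h * ((2 * M + 1) * (4 ^ N * Vc)) := by gcongr
  obtain ⟨VV, hVV⟩ : ∃ VV : Finset ((ℤ × ℤ × ℤ) × Bool), VV =
    (Icc (-(n : ℤ)) n ×ˢ Icc (-(n : ℤ)) n ×ˢ Icc (-(n : ℤ)) n) ×ˢ Finset.univ := ⟨_, rfl⟩
  have hsub : (VB Λ H).filter (fun c => ¬ T3c A B c) ⊆ VV.biUnion Z := by
    intro c hc
    rw [Finset.mem_filter] at hc
    obtain ⟨hc1, hc2⟩ := hc
    unfold T3c NA at hc2
    push Not at hc2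
    obtain ⟨η, hη, hη0, p, q, r, h0, hp, hq, hr, hle⟩ := hc2
    obtain ⟨i, hi⟩ := hu2 (p, q, r) h0 η hη hle
    rw [Finset.mem_biUnion]
    refine ⟨((p, q, r), i), ?_, ?_⟩
    · have key : ∀ m : ℤ, |(m : ℝ)| ≤ A → m ∈ Icc (-(n : ℤ)) n := by
        intro m hm
        rw [Finset.mem_Icc]
        have h1 : ((m.natAbs : ℕ) : ℝ) ≤ A := by rw [Nat.cast_natAbs, Int.cast_abs]; exact hm
        have h2 : m.natAbs ≤ n := by rw [hn]; exact Nat.le_floor h1
        omega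
      rw [hVV, Finset.mem_product, Finset.mem_product, Finset.mem_product]
      exact ⟨⟨key p hp, key q hq, key r hr⟩, Finset.mem_univ _⟩
    · rw [hZ, Finset.mem_filter]
      refine ⟨hc1, ?_⟩
      simp only
      have h1 := ff_lip (by omega) (VB_sub_Bx _ _ hc1) (t := u (p, q, r) i) (t' := η)
        (by have := hu1 (p, q, r) i; linarith) (by linarith)
      rw [hη0, sub_zero] at h1
      refine h1.trans ?_
      rw [hM, abs_sub_comm]
      exact mul_le_mul_of_nonneg_left hi (by positivity)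
  have h1 : (((VB Λ H).filter (fun c => ¬ T3c A B c)).card : ℝ)
      ≤ ((VV.biUnion Z).card : ℝ) := by
    exact_mod_cast Finset.card_le_card hsub
  rcases Nat.eq_zero_or_pos H with hH0 | hH0
  · subst hH0
    simp
    positivity
  have hHR : (0 : ℝ) < H := by exact_mod_cast hH0
  have h2 := card_biUnion_real VV Z (h * ((2 * M + 1) * (4 ^ N * Vc)) / H)
    (fun V _ => by
      rw [le_div_iff₀ hHR]
      exact c1 V)
  have h3 : ((VV.card : ℕ) : ℝ) ≤ 27 * A ^ 3 * 2 := by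
    rw [hVV, Finset.card_product, Finset.card_product, Finset.card_product, card_Icc_H,
      Finset.card_univ, Fintype.card_bool]
    push_cast
    have h4 : 2 * (n : ℝ) + 1 ≤ 3 * A := by linarith
    calc (2 * (n : ℝ) + 1) * ((2 * n + 1) * (2 * n + 1)) * 2 = (2 * (n : ℝ) + 1) ^ 3 * 2 := by ring
      _ ≤ (3 * A) ^ 3 * 2 := by
          apply mul_le_mul_of_nonneg_right _ (by norm_num)
          exact pow_le_pow_left₀ (by positivity) h4 3
      _ = _ := by ring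
  have h4 := h1.trans h2
  calc _ ≤ (VV.card * (h * ((2 * M + 1) * (4 ^ N * Vc)) / H)) * H :=
        mul_le_mul_of_nonneg_right h4 (by positivity)
    _ = VV.card * (h * ((2 * M + 1) * (4 ^ N * Vc))) := by field_simp
    _ ≤ (27 * A ^ 3 * 2) * (h * ((2 * M + 1) * (4 ^ N * Vc))) :=
        mul_le_mul_of_nonneg_right h3 (by positivity)
    _ = _ := by rw [hM]; ring



/-- the number of lattice points -/
noncomputable def Vo (Λ : AddSubgroup (↥(Ix d) → ℤ)) (H : ℕ) : ℝ := ((VB Λ H).card : ℝ)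

lemma Vo_nonneg (Λ : AddSubgroup (↥(Ix d) → ℤ)) (H : ℕ) : 0 ≤ Vo Λ H := by unfold Vo; positivity

/-- one-direction conclusion -/
lemma dir_concl {Λ : AddSubgroup (↥(Ix d) → ℤ)} {h H : ℕ} (hh : 1 ≤ h) {a K : ℝ} (ha : 0 ≤ a) (hK : 0 ≤ K)
    (h0 : a * (2 * ((H / h : ℕ) : ℝ) + 1) ≤ K * (VB Λ (2 * H)).card) :
    a * H ≤ (h * 4 ^ (Ix d).card) * K * Vo Λ H := by
  obtain ⟨hT1, hT2⟩ := T_fact (H := H) hh
  have hV2 := VB_realL (d := d) Λ H 2 (by norm_num)
  have hV2' : ((VB Λ (2 * H)).card : ℝ) ≤ 4 ^ (Ix d).card * Vo Λ H := by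
    refine hV2.trans (le_of_eq ?_)
    unfold Vo
    norm_num
  calc a * H ≤ a * (h * (2 * ((H / h : ℕ) : ℝ) + 1)) := mul_le_mul_of_nonneg_left hT2 ha
    _ = h * (a * (2 * ((H / h : ℕ) : ℝ) + 1)) := by ring
    _ ≤ h * (K * (VB Λ (2 * H)).card) := mul_le_mul_of_nonneg_left h0 (Nat.cast_nonneg _)
    _ ≤ h * (K * (4 ^ (Ix d).card * Vo Λ H)) := by gcongr
    _ = _ := by ring

open Classical in
theorem card_ex4L (hd : 3 ≤ d) (Λ : AddSubgroup (↥(Ix d) → ℤ)) {h : ℕ} (hh : 1 ≤ h) {R2 : ↥(Ix d) → ℤ}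
    (hR : Dr Λ h R2) (hR0 : ff R2 = 0) (hR1 : lead (d - 1) (PG R2) = 0)
    {m : ℤ} (hm : m ≠ 0) (hR2 : lead (d - 2) (PG R2) = C m)
    {H : ℕ} {y : ℝ} (hy : 1 ≤ y) (hyH : y ^ 2 ≤ H) (hdy : d ≤ y) :
    (((VB Λ H).filter (fun c => T2c (2 * H) y c ∧ ¬ T4c (2 * H) y c)).card : ℝ)
      ≤ (3 * (h * 4 ^ (Ix d).card)) / y * Vo Λ H := by
  have hy0 : 0 < y := by linarith
  have hH0 : (0 : ℝ) < H := lt_of_lt_of_le (by positivity) hyH
  obtain ⟨Z, hZ⟩ : ∃ Z, Z = (VB Λ H).filter (fun c => T2c (2 * H) y c ∧ ¬ T4c (2 * H) y c) :=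
    ⟨_, rfl⟩
  rw [← hZ]
  have hT1 := (T_fact (H := H) hh).1
  have hmain := rel_dir Z (VB Λ (2 * H)) R2 (H / h)
    (by
      intro c hc t ht
      rw [hZ, Finset.mem_filter] at hc
      exact smul_add_mem_VB hc.1 hR.1 hR.2 (by omega) ht) (d * (2 * H / y ^ 2 + 1)) (by
    intro c hc
    have hff : ∀ v : ℤ, ff (c - v • R2) = ff c := by
      intro v
      rw [ff_sub_smul, hR0, mul_zero, sub_zero]
    have hl1 : ∀ v : ℤ, lead (d - 1) (PG (c - v • R2)) = lead (d - 1) (PG c) := by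
      intro v
      rw [lead_PG_sub_smul, hR1, mul_zero, sub_zero]
    have hl2 : ∀ v : ℤ, lead (d - 2) (PG (c - v • R2)) = lead (d - 2) (PG c) - C (v * m) := by
      intro v
      rw [lead_PG_sub_smul, hR2, C_mul]
    by_cases hT2 : T2c (2 * H) y c
    swap
    · have : (Icc (-((H / h : ℕ) : ℤ)) (H / h : ℕ)).filter (fun t => c - t • R2 ∈ Z) = ∅ := by
        rw [Finset.filter_eq_empty_iff]
        intro v _ hv
        rw [hZ, Finset.mem_filter] at hv
        apply hT2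
        have := hv.2.1
        unfold T2c at this ⊢
        simpa only [hff] using this
      rw [this]
      simp
      positivity
    have hne : (ff c).map (Int.castRingHom ℝ) ≠ 0 := by
      intro h0
      have hinj : Function.Injective (Int.castRingHom ℝ) := Int.cast_injective
      rw [Polynomial.map_eq_zero_iff hinj] at h0
      apply hT2 0 (by simp)
      rw [h0]
      simp
      positivity
    obtain ⟨Rt, hRt⟩ : ∃ Rt : Finset ℝ, Rt = (((ff c).map (Int.castRingHom ℝ)).roots.toFinset).filter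
      (fun η => |η| ≤ 2) := ⟨_, rfl⟩
    have hRtmem : ∀ η, η ∈ Rt ↔ (evf η (ff c) = 0 ∧ |η| ≤ 2) := by
      intro η
      rw [hRt, Finset.mem_filter, Multiset.mem_toFinset, mem_roots hne, IsRoot.def, eval_map, evf,
        coe_eval₂RingHom]
    have hRtcard : Rt.card ≤ d := by
      rw [hRt]
      refine (Finset.card_filter_le _ _).trans ((Multiset.toFinset_card_le _).trans
        ((card_roots' _).trans ?_))
      exact natDegree_map_le.trans (ff_natDegree c)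
    obtain ⟨U, hU⟩ : ∃ U : ℝ → Finset ℤ, U = fun η : ℝ => (Icc (-((H / h : ℕ) : ℤ)) (H / h : ℕ)).filter
      (fun v => |evf η (gp d (PG (c - v • R2)))| ≤ (2 * H : ℝ) ^ 3 / y ^ 6) :=
      ⟨_, rfl⟩
    have hsub : (Icc (-((H / h : ℕ) : ℤ)) (H / h : ℕ)).filter (fun t => c - t • R2 ∈ Z)
        ⊆ Rt.biUnion U := by
      intro v hv
      rw [Finset.mem_filter, hZ, Finset.mem_filter] at hv
      obtain ⟨hv0, hv1, hv2, hv3⟩ := hv
      unfold T4c at hv3
      push Not at hv3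
      obtain ⟨η, e1, e2, e3⟩ := hv3
      rw [hff] at e2
      rw [Finset.mem_biUnion]
      refine ⟨η, (hRtmem η).2 ⟨e2, e1⟩, ?_⟩
      rw [hU, Finset.mem_filter]
      refine ⟨hv0, ?_⟩
      push_cast at e3
      exact e3
    have hUc : ∀ η ∈ Rt, ((U η).card : ℝ) ≤ 2 * H / y ^ 2 + 1 := by
      intro η hη
      obtain ⟨e1, e2⟩ := (hRtmem η).1 hη
      have hD : 2 * H / y ^ 2 < |evf η (derivative (ff c))| := by
        by_contra hcon
        push Not at hcon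
        apply hT2 η e2
        rw [e1, abs_zero]
        push_cast
        exact ⟨by positivity, hcon⟩
      obtain ⟨D, hDD⟩ : ∃ D, D = evf η (derivative (ff c)) := ⟨_, rfl⟩
      rw [← hDD] at hD
      have hHy : 0 < 2 * (H : ℝ) / y ^ 2 := by positivity
      have hD0 : D ≠ 0 := abs_pos.1 (by linarith)
      have hmR : (m : ℝ) ≠ 0 := by exact_mod_cast hm
      have hm1 : 1 ≤ |(m : ℝ)| := by
        have : 1 ≤ |m| := Int.one_le_abs hm
        exact_mod_cast this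
      have hb : (-(2 * D ^ 2 * m) : ℝ) ≠ 0 :=
        neg_ne_zero.2 (mul_ne_zero (by positivity) hmR)
      have h1 := card_interval (U η)
        (evf η (gp d (PG c))) (-(2 * D ^ 2 * m)) ((2 * H : ℝ) ^ 3 / y ^ 6) hb
        (by positivity) (by
        intro v hv
        rw [hU, Finset.mem_filter] at hv
        obtain ⟨_, hv2⟩ := hv
        rw [gp_eq, hff, hl1, hl2, map_sub, evf_C] at hv2
        push_cast at hv2
        rw [gp_eq, ← hDD]
        rw [← hDD] at hv2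
        refine le_trans (le_of_eq ?_) hv2
        congr 1
        ring)
      refine h1.trans ?_
      have h2' : 2 * ((2 * H : ℝ) ^ 3 / y ^ 6) / |-(2 * D ^ 2 * m)| ≤
          2 * ((2 * H : ℝ) ^ 3 / y ^ 6) / |2 * D ^ 2| := by
        apply div_le_div_of_nonneg_left (by positivity) (abs_pos.2 (by positivity))
        rw [abs_neg, abs_mul (2 * D ^ 2)]
        exact le_mul_of_one_le_right (abs_nonneg _) hm1
      have h2 : 2 * ((2 * H : ℝ) ^ 3 / y ^ 6) / |2 * D ^ 2| ≤ 2 * H / y ^ 2 := by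
        rw [abs_mul, abs_pow, abs_of_pos (by norm_num : (0 : ℝ) < 2),
          mul_div_mul_left _ _ (by norm_num)]
        have h3 : (2 * (H : ℝ) / y ^ 2) ^ 2 ≤ |D| ^ 2 := pow_le_pow_left₀ hHy.le hD.le 2
        rw [div_le_iff₀ (by positivity)]
        calc (2 * H : ℝ) ^ 3 / y ^ 6 = 2 * H / y ^ 2 * (2 * H / y ^ 2) ^ 2 := by field_simp
          _ ≤ 2 * H / y ^ 2 * |D| ^ 2 := mul_le_mul_of_nonneg_left h3 hHy.le
      linarith
    have h5 := card_biUnion_real Rt U _ hUc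
    have h6 : (((Icc (-((H / h : ℕ) : ℤ)) (H / h : ℕ)).filter
        (fun t => c - t • R2 ∈ Z)).card : ℝ) ≤ ((Rt.biUnion U).card : ℝ) := by
      exact_mod_cast Finset.card_le_card hsub
    refine h6.trans (h5.trans ?_)
    apply mul_le_mul_of_nonneg_right _ (by positivity)
    exact_mod_cast hRtcard)
  have h1 := dir_concl (d := d) (Λ := Λ) hh (a := (Z.card : ℝ)) (K := d * (2 * H / y ^ 2 + 1))
    (Nat.cast_nonneg _) (by positivity) hmain
  have h2 : d * (2 * (H : ℝ) / y ^ 2 + 1) ≤ (3 / y) * H := by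
    have h2 : (1 : ℝ) ≤ H / y ^ 2 := by rw [le_div_iff₀ (by positivity)]; linarith
    have h3 : 2 * (H : ℝ) / y ^ 2 = 2 * (H / y ^ 2) := by ring
    calc d * (2 * (H : ℝ) / y ^ 2 + 1) ≤ y * (3 * (H / y ^ 2)) := by
          rw [h3]
          apply mul_le_mul hdy (by linarith) (by positivity) hy0.le
      _ = (3 / y) * H := by field_simp
  have hV := Vo_nonneg Λ H
  have h3 : (Z.card : ℝ) * H ≤ ((3 * (h * 4 ^ (Ix d).card)) / y * Vo Λ H) * H := by
    refine h1.trans ?_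
    calc (h * 4 ^ (Ix d).card) * (d * (2 * (H : ℝ) / y ^ 2 + 1)) * Vo Λ H
        ≤ (h * 4 ^ (Ix d).card) * ((3 / y) * H) * Vo Λ H := by gcongr
      _ = _ := by ring
  exact le_of_mul_le_mul_right h3 hH0

open Classical in
lemma cnt_Z0L (Λ : AddSubgroup (↥(Ix d) → ℤ)) {h : ℕ} (hh : 1 ≤ h) {R : ↥(Ix d) → ℤ}
    {m : ℤ} (hm : m ≠ 0) (hR : Dr Λ h R) (hR0 : ff R = C m * X ^ d) (H : ℕ) :
    (((VB Λ H).filter (fun c => (ff c).natDegree ≠ d)).card : ℝ) * H
      ≤ (h * 4 ^ (Ix d).card) * 1 * Vo Λ H := by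
  have hz : ∀ c : ↥(Ix d) → ℤ, (ff c).natDegree ≠ d → (ff c).coeff d = 0 := by
    intro c hc
    have h1 : (ff c).natDegree < d := lt_of_le_of_ne (ff_natDegree c) hc
    exact coeff_eq_zero_of_natDegree_lt h1
  have hT1 := (T_fact (H := H) hh).1
  apply dir_concl hh (Nat.cast_nonneg _) (by norm_num)
  apply rel_dir _ _ R
  · intro c hc t ht
    rw [Finset.mem_filter] at hc
    exact smul_add_mem_VB hc.1 hR.1 hR.2 (by omega) ht
  · intro c hc
    have h1 : ((Icc (-((H / h : ℕ) : ℤ)) (H / h : ℕ)).filter (fun t => c - t • R ∈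
      (VB Λ H).filter (fun c => (ff c).natDegree ≠ d))).card ≤ 1 := by
      rw [Finset.card_le_one]
      have key : ∀ t ∈ (Icc (-((H / h : ℕ) : ℤ)) (H / h : ℕ)).filter (fun t => c - t • R ∈
        (VB Λ H).filter (fun c => (ff c).natDegree ≠ d)), t * m = (ff c).coeff d := by
        intro t ht
        rw [Finset.mem_filter, Finset.mem_filter] at ht
        have := hz _ ht.2.2
        rw [ff_sub_smul, hR0, coeff_sub, coeff_C_mul, coeff_C_mul, coeff_X_pow, if_pos rfl,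
          mul_one] at this
        linarith
      intro t ht t' ht'
      exact mul_right_cancel₀ hm ((key t ht).trans (key t' ht').symm)
    exact_mod_cast h1

open Classical in
lemma cnt_redL (hd : 2 ≤ d) (Λ : AddSubgroup (↥(Ix d) → ℤ)) {h : ℕ} (hh1 : 1 ≤ h)
    {m : ℤ} (hm : m ≠ 0)
    {R : Fin (d + 1) → ↥(Ix d) → ℤ} (hR : ∀ k, Dr Λ h (R k))
    (hR0 : ∀ k, ff (R k) = C m * X ^ (k : ℕ))
    {H : ℕ} {y : ℝ} (hy1 : 1 ≤ y) (hH : 1 ≤ H)
    (hh : hs2 (2 ^ d * (d + 1) * H) ≤ y ^ 2) (hconst : (d : ℝ) * (3 * (2 ^ d * (d + 1))) ^ d ≤ y)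
    (hyH : y ^ (2 * d + 2) ≤ H) :
    (((VB Λ H).filter (fun c => (ff c).natDegree = d ∧
      ¬ Irreducible ((ff c).map (Int.castRingHom ℚ)))).card : ℝ)
      ≤ ((h : ℝ) ^ (d + 1) * (2 * (d + 2)) ^ (Ix d).card) / y * Vo Λ H := by
  obtain ⟨Z, hZ⟩ : ∃ Z, Z = (VB Λ H).filter (fun c => (ff c).natDegree = d ∧
      ¬ Irreducible ((ff c).map (Int.castRingHom ℚ))) := ⟨_, rfl⟩
  rw [← hZ]
  obtain ⟨U, hU⟩ : ∃ U, U = (Finset.Icc 1 (d / 2)).biUnion (Rk d (2 ^ d * (d + 1) * H)) := ⟨_, rfl⟩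
  have hUc := card_U_le hd hy1 hH hh hconst
  rw [← hU] at hUc
  have hy0 : 0 < y := by linarith
  have hH0 : (0 : ℝ) < H := by exact_mod_cast hH
  obtain ⟨T, hT⟩ : ∃ T : ℕ, T = H / h := ⟨_, rfl⟩
  obtain ⟨hT1, hT2⟩ := T_fact (H := H) hh1
  rw [← hT] at hT1 hT2
  have hTh : H + Fintype.card (Fin (d + 1)) * (T * h) ≤ (d + 2) * H := by
    rw [Fintype.card_fin]
    calc H + (d + 1) * (T * h) ≤ H + (d + 1) * H := by gcongr
      _ = (d + 2) * H := by ring
  have hmain := rel_multi Z (VB Λ ((d + 2) * H)) R T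
    (by
      intro c hc t ht
      rw [hZ, Finset.mem_filter] at hc
      exact sum_add_mem_VB hc.1 (fun k => (hR k).1) (fun k => (hR k).2) hTh ht) (U.card : ℝ) (by
    intro c hc
    have h1 : ((Bx (Fin (d + 1)) T).filter (fun t => c - ∑ k, t k • R k ∈ Z)).card ≤ U.card := by
      apply Finset.card_le_card_of_injOn (fun t => ff (c - ∑ k, t k • R k))
      · intro t ht
        rw [Finset.mem_coe, Finset.mem_filter, hZ, Finset.mem_filter] at ht
        obtain ⟨-, hc1, hc2, hc3⟩ := ht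
        obtain ⟨k, hk1, hk2, hk3⟩ := mem_Rk _ d H (by omega) hc2 (by
            intro i
            rw [coeff_ff, cf]
            split_ifs with h
            · exact mem_Bx.1 (VB_sub_Bx _ _ hc1) _
            · simp) hc3
        rw [Finset.mem_coe, hU, Finset.mem_biUnion]
        refine ⟨k, ?_, hk3⟩
        rw [Finset.mem_Icc]; omega
      · intro t _ t' _ htt
        simp only at htt
        rw [ff_sub_sum, ff_sub_sum] at htt
        have h2 := sub_right_injective htt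
        funext k
        have h3 := congrArg (fun f => coeff f (k : ℕ)) h2
        simp only [finsetSum_coeff, coeff_C_mul, hR0, coeff_X_pow] at h3
        rw [Finset.sum_eq_single k, Finset.sum_eq_single k] at h3
        · simpa [hm] using h3
        · intro j _ hj
          rw [if_neg, mul_zero, mul_zero]
          intro h4; exact hj (Fin.ext h4.symm)
        · intro h4; exact absurd (Finset.mem_univ _) h4
        · intro j _ hj
          rw [if_neg, mul_zero, mul_zero]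
          intro h4; exact hj (Fin.ext h4.symm)
        · intro h4; exact absurd (Finset.mem_univ _) h4
    exact_mod_cast h1)
  rw [Fintype.card_fin] at hmain
  have hV := VB_realL (d := d) Λ H (d + 2) (by omega)
  have hV0 := Vo_nonneg Λ H
  have hV' : ((VB Λ ((d + 2) * H)).card : ℝ) ≤ (2 * (d + 2)) ^ (Ix d).card * Vo Λ H := by
    refine hV.trans (le_of_eq ?_)
    unfold Vo
    push_cast
    rfl
  have hfin : (Z.card : ℝ) * (H : ℝ) ^ (d + 1) ≤ (h : ℝ) ^ (d + 1) *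
      (y ^ (2 * d + 1) * (H : ℝ) ^ d * ((2 * (d + 2)) ^ (Ix d).card * Vo Λ H)) := by
    have h3 : (H : ℝ) ^ (d + 1) ≤ (h * (2 * T + 1)) ^ (d + 1) := pow_le_pow_left₀ hH0.le hT2 _
    calc (Z.card : ℝ) * (H : ℝ) ^ (d + 1)
        ≤ Z.card * (h * (2 * T + 1)) ^ (d + 1) := mul_le_mul_of_nonneg_left h3 (Nat.cast_nonneg _)
      _ = (h : ℝ) ^ (d + 1) * (Z.card * (2 * T + 1) ^ (d + 1)) := by rw [mul_pow]; ring
      _ ≤ (h : ℝ) ^ (d + 1) * (U.card * (VB Λ ((d + 2) * H)).card) :=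
          mul_le_mul_of_nonneg_left hmain (by positivity)
      _ ≤ _ := by gcongr
  have h5 : (Z.card : ℝ) * (H * (H : ℝ) ^ d)
      ≤ (((h : ℝ) ^ (d + 1) * (2 * (d + 2)) ^ (Ix d).card) / y * Vo Λ H) * (H * (H : ℝ) ^ d) := by
    have h6 : (Z.card : ℝ) * (H * (H : ℝ) ^ d) = (Z.card : ℝ) * (H : ℝ) ^ (d + 1) := by ring
    rw [h6]
    refine hfin.trans ?_
    have h7 : y ^ (2 * d + 1) ≤ 1 / y * H := by
      rw [one_div, inv_mul_eq_div, le_div_iff₀ hy0, ← pow_succ]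
      exact hyH
    calc (h : ℝ) ^ (d + 1) *
          (y ^ (2 * d + 1) * (H : ℝ) ^ d * ((2 * (d + 2)) ^ (Ix d).card * Vo Λ H))
        ≤ (h : ℝ) ^ (d + 1) *
          ((1 / y * H) * (H : ℝ) ^ d * ((2 * (d + 2)) ^ (Ix d).card * Vo Λ H)) := by gcongr
      _ = _ := by ring
  exact le_of_mul_le_mul_right h5 (by positivity)

end Pool.Agent.TH728.EP
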