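import Pool.Agent.TH728.EP.CosetL

/-!
Linear systems of plane curves: multivariate polynomials.
-/

open Polynomial Finset

namespace Pool.Agent.TH728.EP

open Pool.Agent.H322R2 hiding VB_real Dr Vo Vo_nonneg dir_concl Cv Cv_mono Cv_or Cv_le Cv_nonneg Cv_sum Cv_sw Vo_sw

variable {d : ℕ}

/-- the coefficient vector -/
noncomputable def vecM (d : ℕ) (F : MvPolynomial (Fin 2) ℤ) : ↥(Ix d) → ℤ :=
  fun p => F.coeff (Finsupp.single 0 p.1.1 + Finsupp.single 1 p.1.2)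

lemma single_add (m : Fin 2 →₀ ℕ) :
    (Finsupp.single 0 (m 0) + Finsupp.single 1 (m 1) : Fin 2 →₀ ℕ) = m := by
  ext i
  fin_cases i <;> simp

lemma coeff_eq_zero {F : MvPolynomial (Fin 2) ℤ} {k : ℕ} (hF : F.totalDegree ≤ k)
    {m : Fin 2 →₀ ℕ} (hm : k < m 0 + m 1) : F.coeff m = 0 := by
  by_contra hcon
  have h3 := MvPolynomial.le_totalDegree (MvPolynomial.mem_support_iff.2 hcon)
  have h4 : (m.sum fun _ e => e) = m.degree := rfl
  rw [h4, degree_fin2] at h3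
  omega

lemma cf_vecM {F : MvPolynomial (Fin 2) ℤ} (hF : F.totalDegree ≤ d) (j i : ℕ) :
    cf (vecM d F) j i = F.coeff (Finsupp.single 0 j + Finsupp.single 1 i) := by
  rw [cf]
  split_ifs with h
  · rfl
  · symm
    apply coeff_eq_zero hF
    rw [mem_Ix] at h
    simp only at h
    simp
    omega

lemma FM_vecM {F : MvPolynomial (Fin 2) ℤ} (hF : F.totalDegree ≤ d) : FM (vecM d F) = F := by
  ext m
  rw [coeff_FM, cf_vecM hF, single_add]

/-- the attached polynomial, as a homomorphism -/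
noncomputable def FMh (d : ℕ) : (↥(Ix d) → ℤ) →+ MvPolynomial (Fin 2) ℤ :=
  AddMonoidHom.mk' FM FM_add

/-- the vectors of the members of a linear system -/
noncomputable def LV (d : ℕ) (V : AddSubgroup (MvPolynomial (Fin 2) ℤ)) :
    AddSubgroup (↥(Ix d) → ℤ) := V.comap (FMh d)

lemma mem_LV {V : AddSubgroup (MvPolynomial (Fin 2) ℤ)} {c : ↥(Ix d) → ℤ} :
    c ∈ LV d V ↔ FM c ∈ V := Iff.rfl

lemma FM_sub (c c' : ↥(Ix d) → ℤ) : FM (c - c') = FM c - FM c' := map_sub (FMh d) c c'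

lemma FM_nsmul (N : ℕ) (c : ↥(Ix d) → ℤ) : FM (N • c) = N • FM c := map_nsmul (FMh d) N c

lemma vecM_mem {V : AddSubgroup (MvPolynomial (Fin 2) ℤ)} {F : MvPolynomial (Fin 2) ℤ}
    (hF : F.totalDegree ≤ d) (h : F ∈ V) : vecM d F ∈ LV d V := by
  rw [mem_LV, FM_vecM hF]
  exact h

lemma coeff_of_hom {F : MvPolynomial (Fin 2) ℤ} {k a b : ℕ} (hab : a + b = k) :
    F.coeff (Finsupp.single 0 a + Finsupp.single 1 b) =
      (MvPolynomial.homogeneousComponent k F).coeff (Finsupp.single 0 a + Finsupp.single 1 b) := by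
  rw [MvPolynomial.coeff_homogeneousComponent, degree_fin2, if_pos (by simp [hab])]

lemma coeff_mon (m : ℤ) (a b a' b' : ℕ) :
    (MvPolynomial.C m * MvPolynomial.X 0 ^ a * MvPolynomial.X 1 ^ b :
      MvPolynomial (Fin 2) ℤ).coeff (Finsupp.single 0 a' + Finsupp.single 1 b') =
      if a' = a ∧ b' = b then m else 0 := by
  have h1 : (MvPolynomial.C m * MvPolynomial.X 0 ^ a * MvPolynomial.X 1 ^ b :
      MvPolynomial (Fin 2) ℤ) =
      MvPolynomial.monomial (Finsupp.single 0 a + Finsupp.single 1 b) m := by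
    rw [MvPolynomial.X_pow_eq_monomial, MvPolynomial.X_pow_eq_monomial, MvPolynomial.C_mul_monomial,
      MvPolynomial.monomial_mul, mul_one, mul_one]
  rw [h1, MvPolynomial.coeff_monomial]
  congr 1
  apply propext
  constructor
  · intro h
    constructor
    · have := congrArg (fun f => f 0) h
      simpa using this.symm
    · have := congrArg (fun f => f 1) h
      simpa using this.symm
  · rintro ⟨rfl, rfl⟩
    rfl

lemma TD_vecM {F : MvPolynomial (Fin 2) ℤ} {k : ℕ} (hkd : k ≤ d) (hF : F.totalDegree ≤ k) :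
    TD k (PG (vecM d F)) := by
  rw [TD_PG_iff]
  intro j i hij
  rw [cf_vecM (hF.trans hkd)]
  apply coeff_eq_zero hF
  simpa using hij

open Classical in
theorem mv_main (hd : 4 ≤ d) (V : AddSubgroup (MvPolynomial (Fin 2) ℤ))
    (h1 : ∀ k ≤ d, ∃ G ∈ V, ∃ m : ℤ, m ≠ 0 ∧ G.totalDegree ≤ d ∧
      MvPolynomial.homogeneousComponent d G =
        MvPolynomial.C m * MvPolynomial.X 0 ^ k * MvPolynomial.X 1 ^ (d - k))
    (h2 : ∀ k, k = 0 ∨ k = d - 2 → ∃ G ∈ V, ∃ m : ℤ, m ≠ 0 ∧ G.totalDegree ≤ d - 2 ∧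
      MvPolynomial.homogeneousComponent (d - 2) G =
        MvPolynomial.C m * MvPolynomial.X 0 ^ k * MvPolynomial.X 1 ^ (d - 2 - k))
    (F₀ : MvPolynomial (Fin 2) ℤ) (hF₀ : F₀.totalDegree ≤ d) (N : ℕ) (hN : 1 ≤ N)
    (hNF : N • F₀ ∈ V) :
    ∃ K : ℝ, ∀ H : ℕ, 1 ≤ H →
      (Set.ncard {F : MvPolynomial (Fin 2) ℤ | (F.totalDegree ≤ d ∧ (∀ n, |F.coeff n| ≤ (H : ℤ)) ∧
        F - F₀ ∈ V) ∧ ∃ x y : ℤ, MvPolynomial.eval ![x, y] F = 0 ∧
          ∃ G ∈ V, G.totalDegree + 4 ≤ d ∧ MvPolynomial.eval ![x, y] G ≠ 0} : ℝ) ≤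
      K * (H : ℝ) ^ (-(1 / (10 ^ 4 * (d : ℝ)))) *
        Set.ncard {F : MvPolynomial (Fin 2) ℤ | F.totalDegree ≤ d ∧ (∀ n, |F.coeff n| ≤ (H : ℤ)) ∧
          F - F₀ ∈ V} := by
  obtain ⟨K, H0, hK0, hK⟩ := coset_main hd (LV d V)
    (by
      intro k
      obtain ⟨G, hG, m, hm, hGd, hGh⟩ := h1 k (by have := k.2; omega)
      refine ⟨vecM d G, vecM_mem hGd hG, m, hm, ?_⟩
      ext j
      rw [coeff_ff, coeff_C_mul, coeff_X_pow]
      by_cases hj : j ≤ d
      · rw [cf_vecM hGd, coeff_of_hom (k := d) (by omega), hGh, coeff_mon]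
        by_cases hjk : j = (k : ℕ)
        · rw [if_pos ⟨hjk, by rw [hjk]⟩, if_pos hjk, mul_one]
        · rw [if_neg (fun h => hjk h.1), if_neg hjk, mul_zero]
      · rw [cf_of_lt _ (by omega), if_neg (by have := k.2; omega), mul_zero])
    (by
      obtain ⟨G, hG, m, hm, hGd, hGh⟩ := h2 0 (Or.inl rfl)
      have hGd' : G.totalDegree ≤ d := by omega
      refine ⟨vecM d G, vecM_mem hGd' hG, m, hm, TD_vecM (by omega) hGd, ?_⟩
      ext j
      rw [coeff_lead, coeff_C]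
      split_ifs with h3 h4 h4
      · rw [coeff_PG, cf_vecM hGd', coeff_of_hom (k := d - 2) (by omega), hGh, coeff_mon,
          if_pos ⟨h4, by omega⟩]
      · rw [coeff_PG, cf_vecM hGd', coeff_of_hom (k := d - 2) (by omega), hGh, coeff_mon,
          if_neg (fun h => h4 h.1)]
      · omega
      · rfl)
    (by
      obtain ⟨G, hG, m, hm, hGd, hGh⟩ := h2 (d - 2) (Or.inr rfl)
      have hGd' : G.totalDegree ≤ d := by omega
      refine ⟨sw (vecM d G), by rw [mem_swG, sw_sw]; exact vecM_mem hGd' hG, m, hm,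
        TD_PG_sw (TD_vecM (by omega) hGd), ?_⟩
      ext j
      rw [coeff_lead, coeff_C]
      split_ifs with h3 h4 h4
      · rw [coeff_PG, cf_sw, cf_vecM hGd', coeff_of_hom (k := d - 2) (by omega), hGh, coeff_mon,
          if_pos ⟨by omega, by omega⟩]
      · rw [coeff_PG, cf_sw, cf_vecM hGd', coeff_of_hom (k := d - 2) (by omega), hGh, coeff_mon,
          if_neg (fun h => h4 (by omega))]
      · omega
      · rfl)
    (vecM d F₀) hN (by rw [mem_LV, FM_nsmul, FM_vecM hF₀]; exact hNF)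
  have hd1 : (1 : ℝ) ≤ d := by exact_mod_cast (by omega : 1 ≤ d)
  refine ⟨K + H0, ?_⟩
  intro H hH
  obtain ⟨A, hA⟩ : ∃ A : Set (MvPolynomial (Fin 2) ℤ), A = {F | F.totalDegree ≤ d ∧
    (∀ n, |F.coeff n| ≤ (H : ℤ)) ∧ F - F₀ ∈ V} := ⟨_, rfl⟩
  obtain ⟨B, hB⟩ : ∃ B : Set (MvPolynomial (Fin 2) ℤ), B = {F | (F.totalDegree ≤ d ∧
    (∀ n, |F.coeff n| ≤ (H : ℤ)) ∧ F - F₀ ∈ V) ∧ ∃ x y : ℤ, MvPolynomial.eval ![x, y] F = 0 ∧
    ∃ G ∈ V, G.totalDegree + 4 ≤ d ∧ MvPolynomial.eval ![x, y] G ≠ 0} := ⟨_, rfl⟩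
  rw [← hA, ← hB]
  have hAf : A = (((CB (LV d V) (vecM d F₀) H).image FM : Finset (MvPolynomial (Fin 2) ℤ)) :
      Set _) := by
    ext F
    rw [hA, Set.mem_ofPred_eq, Finset.mem_coe, Finset.mem_image]
    constructor
    · rintro ⟨f1, f2, f3⟩
      obtain ⟨c, hc, rfl⟩ := FM_memV.1 ⟨f1, f2⟩
      refine ⟨c, ?_, rfl⟩
      rw [mem_CB]
      refine ⟨hc, ?_⟩
      rw [mem_LV, FM_sub, FM_vecM hF₀]
      exact f3
    · rintro ⟨c, hc, rfl⟩
      rw [mem_CB] at hc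
      obtain ⟨f1, f2⟩ := FM_memV.2 ⟨c, hc.1, rfl⟩
      refine ⟨f1, f2, ?_⟩
      have := hc.2
      rw [mem_LV, FM_sub, FM_vecM hF₀] at this
      exact this
  have hBA : B ⊆ A := by
    intro F hF
    rw [hB] at hF
    rw [hA]
    exact hF.1
  have hAc : A.ncard = (CB (LV d V) (vecM d F₀) H).card := by
    rw [hAf, Set.ncard_coe_finset, Finset.card_image_of_injective _ FM_injectiveV]
  have hAfin : A.Finite := by rw [hAf]; exact Finset.finite_toSet _
  have hBA' : (B.ncard : ℝ) ≤ A.ncard := by exact_mod_cast Set.ncard_le_ncard hBA hAfin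
  have hHpos : (0 : ℝ) < H := by exact_mod_cast hH
  have hHp : (0 : ℝ) < (H : ℝ) ^ (-(1 / (10 ^ 4 * (d : ℝ)))) := Real.rpow_pos_of_pos hHpos _
  rcases Nat.lt_or_ge H H0 with hlt | hge
  · refine hBA'.trans ?_
    apply le_mul_of_one_le_left (Nat.cast_nonneg _)
    have e1 : (1 : ℝ) ≤ H * (H : ℝ) ^ (-(1 / (10 ^ 4 * (d : ℝ)))) := by
      conv_rhs => rw [← Real.rpow_one (H : ℝ)]
      rw [← Real.rpow_mul hHpos.le, ← Real.rpow_add hHpos]
      apply Real.one_le_rpow (by exact_mod_cast hH)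
      have : 1 / (10 ^ 4 * (d : ℝ)) ≤ 1 := by
        rw [div_le_one (by positivity)]
        linarith
      linarith
    refine e1.trans ?_
    apply mul_le_mul_of_nonneg_right _ hHp.le
    have : (H : ℝ) ≤ H0 := by exact_mod_cast hlt.le
    linarith
  · obtain ⟨T, hT⟩ : ∃ T : Finset (↥(Ix d) → ℤ), T = (CB (LV d V) (vecM d F₀) H).filter
      (fun c => ∃ p : ℤ × ℤ, p ∉ Bs (LV d V) ∧ ev p.1 p.2 (PG c) = 0) := ⟨_, rfl⟩
    have h3 := hK H hge T (by
      intro c hc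
      rw [hT, Finset.mem_filter] at hc
      exact hc)
    have h4 : B ⊆ ((T.image FM : Finset (MvPolynomial (Fin 2) ℤ)) : Set _) := by
      intro F hF
      have hFA := hBA hF
      rw [hAf, Finset.mem_coe, Finset.mem_image] at hFA
      obtain ⟨c, hc, rfl⟩ := hFA
      rw [hB] at hF
      obtain ⟨_, x, y, hxy, G, hG, hGd, hGxy⟩ := hF
      rw [Finset.mem_coe, Finset.mem_image]
      refine ⟨c, ?_, rfl⟩
      rw [hT, Finset.mem_filter]
      refine ⟨hc, (y, x), ?_, ?_⟩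
      · intro hcon
        apply hGxy
        have h5 := hcon (vecM d G) (vecM_mem (by omega) hG) (TD_vecM (by omega) (by omega))
        simp only at h5
        rw [← eval_FMV, FM_vecM (by omega)] at h5
        exact h5
      · simp only
        rw [← eval_FMV]
        exact hxy
    have h5 : (B.ncard : ℝ) ≤ T.card := by
      have h6 := Set.ncard_le_ncard h4 (Finset.finite_toSet _)
      rw [Set.ncard_coe_finset] at h6
      exact_mod_cast h6.trans Finset.card_image_le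
    rw [hAc]
    refine h5.trans (h3.trans ?_)
    apply mul_le_mul_of_nonneg_right _ (Nat.cast_nonneg _)
    apply mul_le_mul_of_nonneg_right _ hHp.le
    have : (0 : ℝ) ≤ H0 := Nat.cast_nonneg _
    linarith

end Pool.Agent.TH728.EP
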