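import Pool.Agent.TH728.EP.Mv

/-!
Linear systems of plane curves given by base points and congruences.
-/

open Finset MvPolynomial

namespace Pool.Agent.TH728.EP

variable {d : ℕ}

/-- a linear form vanishing at `q`, and not at `p` if `p ≠ q` -/
noncomputable def linf (p q : ℤ × ℤ) : MvPolynomial (Fin 2) ℤ :=
  if p.1 = q.1 then X 1 - C q.2 else X 0 - C q.1

lemma linf_deg (p q : ℤ × ℤ) : (linf p q).totalDegree ≤ 1 := by
  unfold linf
  split_ifs
  · refine (totalDegree_sub _ _).trans ?_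
    rw [totalDegree_X, totalDegree_C]
    simp
  · refine (totalDegree_sub _ _).trans ?_
    rw [totalDegree_X, totalDegree_C]
    simp

lemma linf_self (p q : ℤ × ℤ) : eval ![q.1, q.2] (linf p q) = 0 := by
  unfold linf
  split_ifs <;> simp

lemma linf_ne {p q : ℤ × ℤ} (h : p ≠ q) : eval ![p.1, p.2] (linf p q) ≠ 0 := by
  unfold linf
  split_ifs with h1
  · have h2 : p.2 ≠ q.2 := fun h3 => h (Prod.ext h1 h3)
    simpa [sub_eq_zero] using h2
  · simpa [sub_eq_zero] using h1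

/-- the members of a system given by base points and divisibility of the coefficients -/
def VS (S : Finset (ℤ × ℤ)) (N : ℕ) : AddSubgroup (MvPolynomial (Fin 2) ℤ) where
  carrier := {F | (∀ p ∈ S, eval ![p.1, p.2] F = 0) ∧ ∀ n, (N : ℤ) ∣ F.coeff n}
  zero_mem' := ⟨fun p _ => by simp, fun n => by simp⟩
  add_mem' := by
    rintro F G ⟨h1, h2⟩ ⟨h3, h4⟩
    refine ⟨fun p hp => ?_, fun n => ?_⟩
    · rw [map_add, h1 p hp, h3 p hp, add_zero]
    · rw [coeff_add]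
      exact dvd_add (h2 n) (h4 n)
  neg_mem' := by
    rintro F ⟨h1, h2⟩
    refine ⟨fun p hp => ?_, fun n => ?_⟩
    · rw [map_neg, h1 p hp, neg_zero]
    · rw [coeff_neg]
      exact (dvd_neg).2 (h2 n)

lemma mem_VS {S : Finset (ℤ × ℤ)} {N : ℕ} {F : MvPolynomial (Fin 2) ℤ} :
    F ∈ VS S N ↔ (∀ p ∈ S, eval ![p.1, p.2] F = 0) ∧ ∀ n, (N : ℤ) ∣ F.coeff n := Iff.rfl

lemma sep_of_card {S : Finset (ℤ × ℤ)} (hS : S.card + 4 ≤ d) :
    ∀ p ∈ S, ∃ g : MvPolynomial (Fin 2) ℤ, g.totalDegree + 5 ≤ d ∧ eval ![p.1, p.2] g ≠ 0 ∧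
      ∀ q ∈ S, q ≠ p → eval ![q.1, q.2] g = 0 := by
  classical
  intro p hp
  refine ⟨∏ q ∈ S.erase p, linf p q, ?_, ?_, ?_⟩
  · have h1 : (∏ q ∈ S.erase p, linf p q).totalDegree ≤ ∑ q ∈ S.erase p, 1 :=
      (totalDegree_finsetProd _ _).trans (Finset.sum_le_sum fun q _ => linf_deg p q)
    rw [Finset.sum_const, smul_eq_mul, mul_one, Finset.card_erase_of_mem hp] at h1
    have h2 : 1 ≤ S.card := Finset.card_pos.2 ⟨p, hp⟩
    omega
  · rw [map_prod]
    apply Finset.prod_ne_zero_iff.2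
    intro q hq
    exact linf_ne (Finset.ne_of_mem_erase hq).symm
  · intro q hq hqp
    rw [map_prod]
    exact Finset.prod_eq_zero (Finset.mem_erase.2 ⟨hqp, hq⟩) (linf_self p q)

/-- interpolation -/
lemma interp' {S : Finset (ℤ × ℤ)} {g : ℤ × ℤ → MvPolynomial (Fin 2) ℤ}
    (hg1 : ∀ p ∈ S, (g p).totalDegree + 5 ≤ d) (hg2 : ∀ p ∈ S, eval ![p.1, p.2] (g p) ≠ 0)
    (hg3 : ∀ p ∈ S, ∀ q ∈ S, q ≠ p → eval ![q.1, q.2] (g p) = 0) {N : ℕ} (hN : 1 ≤ N)
    (W : MvPolynomial (Fin 2) ℤ) :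
    ∃ (m : ℤ) (R : MvPolynomial (Fin 2) ℤ), m ≠ 0 ∧ R.totalDegree ≤ d - 5 ∧
      C m * W - R ∈ VS S N ∧
      ∀ P : ℤ × ℤ, (∀ p ∈ S, eval ![P.1, P.2] (g p) = 0) → eval ![P.1, P.2] R = 0 := by
  classical
  obtain ⟨a, ha⟩ : ∃ a : ℤ × ℤ → ℤ, a = fun p => eval ![p.1, p.2] (g p) := ⟨_, rfl⟩
  have hN0 : (N : ℤ) ≠ 0 := by exact_mod_cast (by omega : N ≠ 0)
  refine ⟨N * ∏ q ∈ S, a q, ∑ p ∈ S, C (N * ((∏ q ∈ S.erase p, a q) * eval ![p.1, p.2] W)) * g p,
    ?_, ?_, ?_, ?_⟩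
  · apply mul_ne_zero hN0
    apply Finset.prod_ne_zero_iff.2
    intro q hq
    rw [ha]
    exact hg2 q hq
  · refine (totalDegree_finsetSum _ _).trans ?_
    apply Finset.sup_le
    intro p hp
    refine (totalDegree_mul _ _).trans ?_
    rw [totalDegree_C, zero_add]
    have := hg1 p hp
    omega
  · rw [mem_VS]
    constructor
    · intro q hq
      rw [map_sub, map_mul, eval_C, map_sum, Finset.sum_eq_single_of_mem q hq, map_mul, eval_C]
      · have h1 : a q * ∏ x ∈ S.erase q, a x = ∏ x ∈ S, a x := Finset.mul_prod_erase S a hq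
        have h2 : eval ![q.1, q.2] (g q) = a q := by rw [ha]
        rw [h2, ← h1]
        ring
      · intro p hp hpq
        rw [map_mul, hg3 p hp q hq hpq.symm, mul_zero]
    · have h1 : C (N * ∏ q ∈ S, a q) * W -
          ∑ p ∈ S, C (N * ((∏ q ∈ S.erase p, a q) * eval ![p.1, p.2] W)) * g p =
          C (N : ℤ) * (C (∏ q ∈ S, a q) * W -
            ∑ p ∈ S, C ((∏ q ∈ S.erase p, a q) * eval ![p.1, p.2] W) * g p) := by
        rw [mul_sub, Finset.mul_sum, C_mul, mul_assoc]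
        congr 1
        apply Finset.sum_congr rfl
        intro p _
        rw [C_mul, mul_assoc]
      intro n
      rw [h1, coeff_C_mul]
      exact dvd_mul_right _ _
  · intro P hP
    rw [map_sum]
    apply Finset.sum_eq_zero
    intro p hp
    rw [map_mul, hP p hp, mul_zero]

lemma hom_mon {k a b : ℕ} (hab : a + b = k) (m : ℤ) {R : MvPolynomial (Fin 2) ℤ}
    (hR : R.totalDegree < k) :
    homogeneousComponent k (C m * (X 0 ^ a * X 1 ^ b) - R) = C m * X 0 ^ a * X 1 ^ b ∧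
    (C m * (X 0 ^ a * X 1 ^ b) - R).totalDegree ≤ k := by
  have h1 : (C m * (X 0 ^ a * X 1 ^ b) : MvPolynomial (Fin 2) ℤ).IsHomogeneous k := by
    rw [← zero_add k, ← hab]
    exact (isHomogeneous_C _ _).mul ((isHomogeneous_X_pow _ _).mul (isHomogeneous_X_pow _ _))
  constructor
  · rw [map_sub, homogeneousComponent_eq_zero _ _ hR, sub_zero,
      homogeneousComponent_of_mem h1, if_pos rfl, mul_assoc]
  · refine (totalDegree_sub _ _).trans (max_le h1.totalDegree_le hR.le)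

theorem pts_main (hd : 4 ≤ d) (S : Finset (ℤ × ℤ)) (hS : ∀ p ∈ S, ∃ g : MvPolynomial (Fin 2) ℤ,
      g.totalDegree + 5 ≤ d ∧ eval ![p.1, p.2] g ≠ 0 ∧
      ∀ q ∈ S, q ≠ p → eval ![q.1, q.2] g = 0)
    (F₀ : MvPolynomial (Fin 2) ℤ) (hF₀ : F₀.totalDegree ≤ d)
    (hF₀S : ∀ p ∈ S, eval ![p.1, p.2] F₀ = 0) (N : ℕ) (hN : 1 ≤ N) :
    ∃ K : ℝ, ∀ H : ℕ, 1 ≤ H →
      (Set.ncard {F : MvPolynomial (Fin 2) ℤ | (F.totalDegree ≤ d ∧ (∀ n, |F.coeff n| ≤ (H : ℤ)) ∧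
        (∀ n, (N : ℤ) ∣ F.coeff n - F₀.coeff n) ∧ ∀ p ∈ S, eval ![p.1, p.2] F = 0) ∧
        ∃ x y : ℤ, (x, y) ∉ S ∧ eval ![x, y] F = 0} : ℝ) ≤
      K * (H : ℝ) ^ (-(1 / (10 ^ 4 * (d : ℝ)))) *
        Set.ncard {F : MvPolynomial (Fin 2) ℤ | F.totalDegree ≤ d ∧ (∀ n, |F.coeff n| ≤ (H : ℤ)) ∧
        (∀ n, (N : ℤ) ∣ F.coeff n - F₀.coeff n) ∧ ∀ p ∈ S, eval ![p.1, p.2] F = 0} := by
  classical
  choose! g hg1 hg2 hg3 using hS
  have hN0 : (N : ℤ) ≠ 0 := by exact_mod_cast (by omega : N ≠ 0)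
  have hmem : ∀ F : MvPolynomial (Fin 2) ℤ, F - F₀ ∈ VS S N ↔
      ((∀ n, (N : ℤ) ∣ F.coeff n - F₀.coeff n) ∧ ∀ p ∈ S, eval ![p.1, p.2] F = 0) := by
    intro F
    rw [mem_VS]
    constructor
    · rintro ⟨h1, h2⟩
      refine ⟨fun n => by simpa using h2 n, fun p hp => ?_⟩
      have := h1 p hp
      rw [map_sub, hF₀S p hp, sub_zero] at this
      exact this
    · rintro ⟨h1, h2⟩
      refine ⟨fun p hp => ?_, fun n => by simpa using h1 n⟩
      rw [map_sub, hF₀S p hp, h2 p hp, sub_zero]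
  obtain ⟨K, hK⟩ := mv_main hd (VS S N)
    (by
      intro k hk
      obtain ⟨m, R, hm, hR, hV, _⟩ := interp' (d := d) hg1 hg2 hg3 hN (X 0 ^ k * X 1 ^ (d - k))
      obtain ⟨h1, h2⟩ := hom_mon (k := d) (a := k) (b := d - k) (by omega) m (R := R) (by omega)
      exact ⟨_, hV, m, hm, h2, h1⟩)
    (by
      intro k hk
      obtain ⟨m, R, hm, hR, hV, _⟩ := interp' (d := d) hg1 hg2 hg3 hN (X 0 ^ k * X 1 ^ (d - 2 - k))
      obtain ⟨h1, h2⟩ := hom_mon (k := d - 2) (a := k) (b := d - 2 - k) (by omega) m (R := R)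
        (by omega)
      exact ⟨_, hV, m, hm, h2, h1⟩)
    F₀ hF₀ N hN (by
      rw [mem_VS]
      refine ⟨fun p hp => ?_, fun n => ?_⟩
      · rw [map_nsmul, hF₀S p hp, smul_zero]
      · rw [coeff_smul, nsmul_eq_mul]
        exact dvd_mul_right _ _)
  refine ⟨K, fun H hH => ?_⟩
  have h := hK H hH
  simp only [hmem] at h
  have hbase : ∀ x y : ℤ, (x, y) ∉ S → ∃ G ∈ VS S N, G.totalDegree + 4 ≤ d ∧
      eval ![x, y] G ≠ 0 := by
    intro x y hxy
    by_cases hex : ∃ p ∈ S, eval ![x, y] (g p) ≠ 0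
    · obtain ⟨p, hp, hpx⟩ := hex
      have hne : (x, y) ≠ p := fun h => hxy (h ▸ hp)
      refine ⟨C (N : ℤ) * (g p * linf (x, y) p), ?_, ?_, ?_⟩
      · rw [mem_VS]
        constructor
        · intro q hq
          rw [map_mul, map_mul]
          by_cases hqp : q = p
          · rw [hqp, linf_self, mul_zero, mul_zero]
          · rw [hg3 p hp q hq hqp, zero_mul, mul_zero]
        · intro n
          rw [coeff_C_mul]
          exact dvd_mul_right _ _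
      · have h1 : (C (N : ℤ) * (g p * linf (x, y) p)).totalDegree ≤ 0 + ((g p).totalDegree + 1) := by
          refine (totalDegree_mul _ _).trans (add_le_add (by rw [totalDegree_C]) ?_)
          exact (totalDegree_mul _ _).trans (add_le_add le_rfl (linf_deg _ _))
        have := hg1 p hp
        omega
      · have h3 : eval ![x, y] (linf (x, y) p) ≠ 0 := linf_ne (p := (x, y)) (q := p) hne
        rw [map_mul, map_mul, eval_C]
        exact mul_ne_zero hN0 (mul_ne_zero hpx h3)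
    · push Not at hex
      obtain ⟨m, R, hm, hR, hV, h0⟩ := interp' (d := d) hg1 hg2 hg3 hN 1
      refine ⟨_, hV, ?_, ?_⟩
      · have h1 : (C m * 1 - R).totalDegree ≤ max 0 (d - 5) := by
          refine (totalDegree_sub _ _).trans (max_le_max ?_ hR)
          rw [mul_one, totalDegree_C]
        simp only [zero_le, sup_of_le_right] at h1
        omega
      · have h2 : eval ![x, y] R = 0 := h0 (x, y) hex
        rw [map_sub, map_mul, eval_C, map_one, mul_one, h2, sub_zero]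
        exact hm
  refine le_trans ?_ h
  have hfin : Set.Finite {F : MvPolynomial (Fin 2) ℤ | (F.totalDegree ≤ d ∧
      (∀ n, |F.coeff n| ≤ (H : ℤ)) ∧ (∀ n, (N : ℤ) ∣ F.coeff n - F₀.coeff n) ∧
      ∀ p ∈ S, eval ![p.1, p.2] F = 0) ∧ ∃ x y : ℤ, eval ![x, y] F = 0 ∧
        ∃ G ∈ VS S N, G.totalDegree + 4 ≤ d ∧ eval ![x, y] G ≠ 0} := by
    apply Set.Finite.subset (Finset.finite_toSet ((Pool.Agent.H322R2.Bx
      ↥(Pool.Agent.H322R2.Ix d) H).image Pool.Agent.H322R2.FM))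
    rintro F ⟨⟨h1, h2, _⟩, _⟩
    rw [Finset.mem_coe, Finset.mem_image]
    exact Pool.Agent.H322R2.FM_memV.1 ⟨h1, h2⟩
  have h1 := Set.ncard_le_ncard (s := {F : MvPolynomial (Fin 2) ℤ | (F.totalDegree ≤ d ∧
      (∀ n, |F.coeff n| ≤ (H : ℤ)) ∧ (∀ n, (N : ℤ) ∣ F.coeff n - F₀.coeff n) ∧
      ∀ p ∈ S, eval ![p.1, p.2] F = 0) ∧ ∃ x y : ℤ, (x, y) ∉ S ∧ eval ![x, y] F = 0}) (by
      rintro F ⟨h1, x, y, h2, h3⟩
      exact ⟨h1, x, y, h3, hbase x y h2⟩) hfin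
  exact_mod_cast h1

end Pool.Agent.TH728.EP
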