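import Pool.Agent.TH728.EP.ExcL

/-!
Counting points along directions in a linear system, and the exchange of variables.  The arguments
are those of `Pool.Agent.H322R2.SecV`, `AsmA`, for an arbitrary additive subgroup.
-/

open Polynomial Finset

namespace Pool.Agent.TH728.EP

open Pool.Agent.H322R2 hiding VB_real Dr Vo Vo_nonneg dir_concl Cv Cv_mono Cv_or Cv_le Cv_nonneg Cv_sum Cv_sw Vo_sw

variable {d : ℕ}

open Classical in
lemma sec_countL {Λ : AddSubgroup (↥(Ix d) → ℤ)} {h : ℕ} (hh : 1 ≤ h) {R : ↥(Ix d) → ℤ} (hR : Dr Λ h R)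
    (H : ℕ) (Q : (↥(Ix d) → ℤ) → Prop) (P : ℤ × ℤ → Prop) (N : ℕ)
    (hQ : ∀ c, Q c → ∀ t : ℤ, Q (c + t • R))
    (hN : ∀ c ∈ VB Λ (2 * H), Q c → ∀ T : Finset (ℤ × ℤ), (∀ p ∈ T, P p ∧
      ∃ t : ℤ, c - t • R ∈ VB Λ H ∧ ev p.1 p.2 (PG (c - t • R)) = 0) → T.card ≤ N) :
    (((VB Λ H).filter (fun c => Q c ∧ ∃ p, (P p ∧ ev p.1 p.2 (PG R) ≠ 0) ∧
      ev p.1 p.2 (PG c) = 0)).card : ℝ) * H ≤ (h * 4 ^ (Ix d).card) * N * Vo Λ H := by
  obtain ⟨Z, hZ⟩ : ∃ Z, Z = (VB Λ H).filter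
    (fun c => Q c ∧ ∃ p, (P p ∧ ev p.1 p.2 (PG R) ≠ 0) ∧ ev p.1 p.2 (PG c) = 0) := ⟨_, rfl⟩
  rw [← hZ]
  have hT1 := (T_fact (H := H) hh).1
  apply dir_concl hh (Nat.cast_nonneg _) (Nat.cast_nonneg _)
  have hmain := rel_dir Z ((VB Λ (2 * H)).filter Q) R (H / h)
    (by
      intro c hc t ht
      rw [hZ, Finset.mem_filter] at hc
      rw [Finset.mem_filter]
      exact ⟨smul_add_mem_VB hc.1 hR.1 hR.2 (by omega) ht, hQ c hc.2.1 t⟩) N (by
      intro c hc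
      rw [Finset.mem_filter] at hc
      obtain ⟨F, hF⟩ : ∃ F, F = (Icc (-((H / h : ℕ) : ℤ)) (H / h : ℕ)).filter
        (fun t => c - t • R ∈ Z) := ⟨_, rfl⟩
      rw [← hF]
      have hsel : ∀ t ∈ F, ∃ p : ℤ × ℤ, (P p ∧ ev p.1 p.2 (PG R) ≠ 0) ∧
          ev p.1 p.2 (PG (c - t • R)) = 0 := by
        intro t ht
        rw [hF, Finset.mem_filter, hZ, Finset.mem_filter] at ht
        exact ht.2.2.2
      choose! f hf1 hf2 using hsel
      have hinj : Set.InjOn f F := by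
        intro t ht t' ht' htt
        have e1 := hf2 t ht
        have e2 := hf2 t' ht'
        have e3 := (hf1 t ht).2
        rw [htt] at e1 e3
        rw [PG_sub_smul, map_sub, map_mul, ev_C, evf_C] at e1 e2
        have e4 : ((t : ℤ) - t') * ev (f t').1 (f t').2 (PG R) = 0 := by
          simp only [Int.cast_id] at e1 e2
          linear_combination e2 - e1
        rcases mul_eq_zero.1 e4 with h0 | h0
        · omega
        · exact absurd h0 e3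
      have h1 : (F.image f).card = F.card := Finset.card_image_of_injOn hinj
      have h2 := hN c hc.1 hc.2 (F.image f) (by
        intro p hp
        rw [Finset.mem_image] at hp
        obtain ⟨t, ht, rfl⟩ := hp
        refine ⟨(hf1 t ht).1, t, ?_, hf2 t ht⟩
        rw [hF, Finset.mem_filter, hZ, Finset.mem_filter] at ht
        exact ht.2.1)
      rw [h1] at h2
      exact_mod_cast h2)
  refine hmain.trans ?_
  apply mul_le_mul_of_nonneg_left _ (Nat.cast_nonneg _)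
  exact_mod_cast Finset.card_filter_le _ _

open Classical in
lemma cnt_smallL {Λ : AddSubgroup (↥(Ix d) → ℤ)} {h : ℕ} (hh : 1 ≤ h) {R : ↥(Ix d) → ℤ} (hR : Dr Λ h R)
    (H m : ℕ) :
    (((VB Λ H).filter (fun c => True ∧ ∃ p : ℤ × ℤ, ((|p.1| ≤ m ∧ |p.2| ≤ m) ∧
      ev p.1 p.2 (PG R) ≠ 0) ∧ ev p.1 p.2 (PG c) = 0)).card : ℝ) * H
      ≤ (h * 4 ^ (Ix d).card) * ((2 * m + 1) ^ 2 : ℕ) * Vo Λ H := by
  refine le_trans (le_of_eq ?_) (sec_countL (d := d) hh hR H (fun _ => True)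
    (fun p => |p.1| ≤ m ∧ |p.2| ≤ m) ((2 * m + 1) ^ 2) (fun _ _ _ => trivial) ?_)
  · congr!
  · intro c _ _ T hT
    have hsub : T ⊆ Icc (-(m : ℤ)) m ×ˢ Icc (-(m : ℤ)) m := by
      intro p hp
      obtain ⟨⟨h1, h2⟩, -⟩ := hT p hp
      rw [Finset.mem_product, Finset.mem_Icc, Finset.mem_Icc]
      exact ⟨abs_le.1 h1, abs_le.1 h2⟩
    have h1 := Finset.card_le_card hsub
    rw [Finset.card_product, card_Icc_H] at h1
    rw [sq]; exact h1

open Classical in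
lemma cnt_midL (hd : 4 ≤ d) {Λ : AddSubgroup (↥(Ix d) → ℤ)} {h : ℕ} (hh : 1 ≤ h) {R : ↥(Ix d) → ℤ}
    (hR : Dr Λ h R) (hRT : TD (d - 4) (PG R)) {H : ℕ} {y : ℝ} (hyK : K0 d ≤ y) (hyH : y ^ 2 ≤ H)
    (n : ℕ) :
    (((VB Λ H).filter (fun c => Typ (2 * H) y c ∧ ∃ p : ℤ × ℤ, ((|(p.2 : ℝ)| ≤ |(p.1 : ℝ)| ∧
      y ^ (k0 d) ≤ |(p.1 : ℝ)| ∧ |(p.1 : ℝ)| ≤ y ^ (k0 d) * y ^ (n + 1)) ∧
      ev p.1 p.2 (PG R) ≠ 0) ∧ ev p.1 p.2 (PG c) = 0)).card : ℝ) * H
      ≤ (h * 4 ^ (Ix d).card) * ((4 * (n + 1) * d : ℕ) : ℝ) * Vo Λ H := by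
  apply sec_countL (d := d) hh hR H (Typ (2 * H) y) (fun p => |(p.2 : ℝ)| ≤ |(p.1 : ℝ)| ∧
      y ^ (k0 d) ≤ |(p.1 : ℝ)| ∧ |(p.1 : ℝ)| ≤ y ^ (k0 d) * y ^ (n + 1))
  · intro c hc t
    apply Typ_of_add hd (TD_smul hRT t) _ hc
    rw [PG_add]
  · intro c hc hty T hT
    have hyH' : y ^ 2 ≤ ((2 * H : ℕ) : ℝ) := by
      push_cast
      have : (0 : ℝ) ≤ H := by positivity
      linarith
    apply mid_countG hd hyK hyH' (VB_sub_Bx _ _ hc) hty n T
    intro p hp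
    obtain ⟨⟨h1, h2, h3⟩, t, ht1, ht2⟩ := hT p hp
    refine ⟨h1, h2, h3, c - t • R, Bx_mono (by omega) (VB_sub_Bx _ _ ht1), PG ((-t) • R),
      TD_smul hRT _, ?_, ht2⟩
    rw [← PG_add, neg_smul, ← sub_eq_add_neg]

open Classical in
lemma cnt_largeL (hd : 4 ≤ d) {Λ : AddSubgroup (↥(Ix d) → ℤ)} {h : ℕ} (hh : 1 ≤ h) {R : ↥(Ix d) → ℤ}
    (hR : Dr Λ h R) (hRT : TD (d - 4) (PG R)) {H : ℕ} {y : ℝ} (hy : 0 < y) :
    (((VB Λ H).filter (fun c => (Typ (2 * H) y c ∧ Typ (2 * H) y (sw c) ∧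
      (ff c).natDegree = d ∧ Irreducible ((ff c).map (Int.castRingHom ℚ))) ∧ ∃ p : ℤ × ℤ,
      ((((d + 1) * ((Ix d).card * (4 * H))) ^ (kC d) < max p.2.natAbs p.1.natAbs) ∧
      ev p.1 p.2 (PG R) ≠ 0) ∧ ev p.1 p.2 (PG c) = 0)).card : ℝ) * H
      ≤ (h * 4 ^ (Ix d).card) * (kN d : ℕ) * Vo Λ H := by
  have hffR : ∀ (c : ↥(Ix d) → ℤ) (t : ℤ), ff (c + t • R) = ff c := by
    intro c t
    have h1 := lead_add_of_TD (G := PG c) hd (TD_smul hRT t) 0 (by omega)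
    rw [Nat.sub_zero] at h1
    rw [ff, PG_add, h1, ← ff]
  refine le_trans (le_of_eq ?_) (sec_countL (d := d) hh hR H
      (fun c => Typ (2 * H) y c ∧ Typ (2 * H) y (sw c) ∧ (ff c).natDegree = d ∧
      Irreducible ((ff c).map (Int.castRingHom ℚ)))
      (fun p => ((d + 1) * ((Ix d).card * (4 * H))) ^ (kC d) < max p.2.natAbs p.1.natAbs)
      (kN d) ?_ ?_)
  · congr!
  · intro c hc t
    rw [hffR]
    refine ⟨?_, ?_, hc.2.2⟩
    · apply Typ_of_add hd (TD_smul hRT t) _ hc.1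
      rw [PG_add]
    · rw [sw_add_smul]
      apply Typ_of_add hd (TD_smul (TD_PG_sw hRT) t) _ hc.2.1
      rw [PG_add]
  · rintro c hc ⟨hty, hty', hfd, hirr⟩ T hT
    have htd := totalDegree_FM (by omega) hfd
    have hcB := VB_sub_Bx _ _ hc
    have hm := main3 (FM c) ((Ix d).card * (4 * H)) (by rw [htd]; exact hd)
      (irr_FM (by omega) hfd hirr) (by
        intro p q hq
        rw [htd]
        exact lines_of_typ (by omega) hy hty.2.2 hty'.2.2 p q hq) (by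
        refine (len_FM hcB).trans (Nat.mul_le_mul_left _ (by omega)))
    rw [htd] at hm
    have hsel : ∀ p ∈ T, ∃ t : ℤ, c - t • R ∈ VB Λ H ∧ ev p.1 p.2 (PG (c - t • R)) = 0 :=
      fun p hp => (hT p hp).2
    choose! f hf1 hf2 using hsel
    obtain ⟨φ, hφ⟩ : ∃ φ : ℤ × ℤ → MvPolynomial (Fin 2) ℤ × ℤ × ℤ,
      φ = fun p => (FM ((-(f p)) • R), p.2, p.1) := ⟨_, rfl⟩
    have hinj : Set.InjOn φ T := by
      intro p _ q _ hpq
      rw [hφ] at hpq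
      simp only [Prod.mk.injEq] at hpq
      exact Prod.ext hpq.2.2 hpq.2.1
    have h1 : ((T.image φ : Finset _) : Set (MvPolynomial (Fin 2) ℤ × ℤ × ℤ)) ⊆
      {t : MvPolynomial (Fin 2) ℤ × ℤ × ℤ | t.1.totalDegree + 4 ≤ d ∧
      len t.1 ≤ (Ix d).card * (4 * H) ∧ MvPolynomial.eval ![t.2.1, t.2.2] (FM c + t.1) = 0 ∧
      ((d + 1) * ((Ix d).card * (4 * H))) ^ (kC d) < max t.2.1.natAbs t.2.2.natAbs} := by
      intro q hq
      rw [Finset.mem_coe, Finset.mem_image] at hq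
      obtain ⟨p, hp, rfl⟩ := hq
      rw [hφ]
      simp only [Set.mem_ofPred_eq]
      have hsum : FM c + FM ((-(f p)) • R) = FM (c - f p • R) := by
        rw [← FM_add, neg_smul, ← sub_eq_add_neg]
      refine ⟨?_, ?_, ?_, (hT p hp).1⟩
      · have := totalDegree_FM_of_TD (TD_smul hRT (-(f p)))
        omega
      · apply len_FM
        have h2 : (-(f p)) • R = (c - f p • R) - c := by rw [neg_smul]; abel
        rw [h2, mem_Bx]
        intro i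
        have h3 := mem_Bx.1 (VB_sub_Bx _ _ (hf1 p hp)) i
        have h4 := mem_Bx.1 hcB i
        have h5 : ((c - f p • R) - c) i = (c - f p • R) i - c i := rfl
        rw [h5]
        refine (abs_sub _ _).trans ?_
        push_cast at h4 ⊢
        linarith
      · rw [hsum]
        have h2 := ev_FM (S := ℤ) p.2 p.1 (c - f p • R)
        rw [hf2 p hp] at h2
        rw [← h2]
        rw [MvPolynomial.eval, MvPolynomial.coe_eval₂Hom]
        congr 1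
    have h2 : (T.card : ℕ∞) ≤ (kN d : ℕ) := by
      rw [← Finset.card_image_of_injOn hinj, ← Set.encard_coe_eq_coe_finsetCard]
      exact (Set.encard_le_encard h1).trans hm
    exact_mod_cast h2

/-- the exchange of variables -/
def swHom : (↥(Ix d) → ℤ) →+ (↥(Ix d) → ℤ) where
  toFun := sw
  map_zero' := rfl
  map_add' := fun _ _ => rfl

/-- the linear system after the exchange of variables -/
def swG (Λ : AddSubgroup (↥(Ix d) → ℤ)) : AddSubgroup (↥(Ix d) → ℤ) := Λ.comap swHom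

lemma mem_swG {Λ : AddSubgroup (↥(Ix d) → ℤ)} {c : ↥(Ix d) → ℤ} : c ∈ swG Λ ↔ sw c ∈ Λ := Iff.rfl

lemma sw_mem_VB {Λ : AddSubgroup (↥(Ix d) → ℤ)} {H : ℕ} {c : ↥(Ix d) → ℤ} :
    sw c ∈ VB (swG Λ) H ↔ c ∈ VB Λ H := by
  rw [mem_VB, mem_VB, mem_swG, sw_sw]
  constructor
  · rintro ⟨h1, h2⟩
    refine ⟨?_, h2⟩
    have := sw_mem h1
    rwa [sw_sw] at this
  · rintro ⟨h1, h2⟩
    exact ⟨sw_mem h1, h2⟩

open Classical in
/-- number of vectors in the box of a linear system with a property -/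
noncomputable def Cv (Λ : AddSubgroup (↥(Ix d) → ℤ)) (H : ℕ) (P : (↥(Ix d) → ℤ) → Prop) : ℝ :=
  (((VB Λ H).filter P).card : ℝ)

lemma Cv_mono {Λ : AddSubgroup (↥(Ix d) → ℤ)} {H : ℕ} {P Q : (↥(Ix d) → ℤ) → Prop}
    (h : ∀ c ∈ VB Λ H, P c → Q c) : Cv Λ H P ≤ Cv Λ H Q := by
  classical
  unfold Cv
  have : ((VB Λ H).filter P).card ≤ ((VB Λ H).filter Q).card := by
    apply Finset.card_le_card
    intro c hc
    rw [Finset.mem_filter] at hc ⊢
    exact ⟨hc.1, h c hc.1 hc.2⟩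
  convert (show ((((VB Λ H).filter P).card : ℕ) : ℝ) ≤
    (((VB Λ H).filter Q).card : ℕ) by exact_mod_cast this)

lemma Cv_or {Λ : AddSubgroup (↥(Ix d) → ℤ)} {H : ℕ} (P Q : (↥(Ix d) → ℤ) → Prop) :
    Cv Λ H (fun c => P c ∨ Q c) ≤ Cv Λ H P + Cv Λ H Q := by
  classical
  unfold Cv
  have h1 := Finset.card_union_le ((VB Λ H).filter P) ((VB Λ H).filter Q)
  rw [← Finset.filter_or] at h1
  have h2 : ((((VB Λ H).filter (fun c => P c ∨ Q c)).card : ℕ) : ℝ) ≤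
    (((VB Λ H).filter P).card : ℕ) + (((VB Λ H).filter Q).card : ℕ) := by
    exact_mod_cast h1
  convert h2

lemma Cv_le {Λ : AddSubgroup (↥(Ix d) → ℤ)} {H : ℕ} (P : (↥(Ix d) → ℤ) → Prop) : Cv Λ H P ≤ Vo Λ H := by
  classical
  have h1 : ((((VB Λ H).filter P).card : ℕ) : ℝ) ≤ ((VB Λ H).card : ℕ) := by
    exact_mod_cast Finset.card_filter_le _ _
  unfold Cv Vo
  convert h1

lemma Cv_nonneg {Λ : AddSubgroup (↥(Ix d) → ℤ)} {H : ℕ} (P : (↥(Ix d) → ℤ) → Prop) : 0 ≤ Cv Λ H P := by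
  unfold Cv; positivity

lemma Cv_sum {κ : Type*} {Λ : AddSubgroup (↥(Ix d) → ℤ)} {H : ℕ} (s : Finset κ)
    (P : κ → (↥(Ix d) → ℤ) → Prop) :
    Cv Λ H (fun c => ∃ k ∈ s, P k c) ≤ ∑ k ∈ s, Cv Λ H (P k) := by
  classical
  induction s using Finset.induction_on with
  | empty =>
    rw [Finset.sum_empty]
    have : Cv Λ H (fun c : ↥(Ix d) → ℤ => ∃ k ∈ (∅ : Finset κ), P k c) = 0 := by
      unfold Cv
      rw [Nat.cast_eq_zero, Finset.card_eq_zero]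
      ext c
      simp
    rw [this]
  | insert a s ha ih =>
    rw [Finset.sum_insert ha]
    refine le_trans ?_ (add_le_add_right ih _)
    refine le_trans ?_ (Cv_or _ _)
    apply Cv_mono
    rintro c _ ⟨k, hk, hk2⟩
    rw [Finset.mem_insert] at hk
    rcases hk with rfl | hk
    · left; exact hk2
    · right; exact ⟨k, hk, hk2⟩

lemma Cv_sw {Λ : AddSubgroup (↥(Ix d) → ℤ)} {H : ℕ} (P : (↥(Ix d) → ℤ) → Prop) :
    Cv Λ H (fun c => P (sw c)) = Cv (swG Λ) H P := by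
  classical
  have h : ((VB Λ H).filter (fun c => P (sw c))).card
      = ((VB (swG Λ) H).filter P).card := by
    apply Finset.card_bij (fun c _ => sw c)
    · intro c hc
      rw [Finset.mem_filter] at hc ⊢
      exact ⟨sw_mem_VB.2 hc.1, hc.2⟩
    · intro c _ c' _ h
      have := congrArg sw h
      rwa [sw_sw, sw_sw] at this
    · intro c hc
      rw [Finset.mem_filter] at hc
      refine ⟨sw c, ?_, sw_sw c⟩
      rw [Finset.mem_filter, sw_sw]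
      refine ⟨?_, hc.2⟩
      rw [← sw_mem_VB, sw_sw]
      exact hc.1
  unfold Cv
  congr!

lemma Vo_sw (Λ : AddSubgroup (↥(Ix d) → ℤ)) (H : ℕ) : Vo (swG Λ) H = Vo Λ H := by
  have h := Cv_sw (d := d) (Λ := Λ) (H := H) (fun _ => True)
  unfold Cv at h
  simp only [Finset.filter_true] at h
  unfold Vo
  exact h.symm

end Pool.Agent.TH728.EP
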