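import Pool.Agent.TH728.EP.AsmL

/-!
Almost all members of a linear system of plane curves have no integer point outside the base
points of its members of small degree: vectors.
-/

open Polynomial Finset

namespace Pool.Agent.TH728.EP

open Pool.Agent.H322R2 hiding VB_real Dr Vo Vo_nonneg dir_concl Cv Cv_mono Cv_or Cv_le Cv_nonneg Cv_sum Cv_sw Vo_sw

variable {d : ℕ}

lemma K1_nonneg (d : ℕ) : 0 ≤ K1 d := by
  have hNN := NN_nonneg (d := d)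
  have hCL0 := CL_nonneg d
  have hlog := logt_nonneg d
  have p0 : 0 ≤ K0 d := by unfold K0; positivity
  have p1 : (0 : ℝ) ≤ (4 * ((EE d + 1) * kC d) * d : ℕ) := Nat.cast_nonneg _
  have p2 : (0 : ℝ) ≤ (kN d : ℕ) := Nat.cast_nonneg _
  have p3 : 0 ≤ (d : ℝ) * (3 * (2 ^ d * (d + 1))) ^ d := by positivity
  have p4 : (0 : ℝ) ≤ (EE d : ℕ) := Nat.cast_nonneg _
  unfold K1
  linarith

theorem vec_boundL (hd : 4 ≤ d) (Λ : AddSubgroup (↥(Ix d) → ℤ)) (S : Set (ℤ × ℤ)) {h : ℕ}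
    (hh : 1 ≤ h) {m0 m0' : ℤ} (hm0 : m0 ≠ 0) (hm0' : m0' ≠ 0)
    {Rd Rd' : Fin (d + 1) → ↥(Ix d) → ℤ} {R2 R2' : ↥(Ix d) → ℤ} {RR RR' : Finset (↥(Ix d) → ℤ)}
    (D : DDL Λ S h m0 Rd R2 RR) (D' : DDL (swG Λ) {q | (q.2, q.1) ∈ S} h m0' Rd' R2' RR')
    {H : ℕ} (hH : 1 ≤ H) :
    Cv Λ H (fun c : ↥(Ix d) → ℤ => ∃ p : ℤ × ℤ, p ∉ S ∧ ev p.1 p.2 (PG c) = 0)
      ≤ (KV d h RR.card RR'.card + K1 d) * (H : ℝ) ^ (-(1 / (10 ^ 4 * (d : ℝ)))) * Vo Λ H := by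
  have hH0 : (0 : ℝ) < H := by exact_mod_cast hH
  obtain ⟨y, hy⟩ : ∃ y : ℝ, y = (H : ℝ) ^ (((EE d : ℕ) : ℝ)⁻¹) := ⟨_, rfl⟩
  have hEE : EE d ≠ 0 := by unfold EE; omega
  have hyH : y ^ (EE d) = H := by
    rw [hy]; exact Real.rpow_inv_natCast_pow hH0.le hEE
  have hy0 : 0 < y := by rw [hy]; exact Real.rpow_pos_of_pos hH0 _
  have hyinv : (H : ℝ) ^ (-(1 / (10 ^ 4 * (d : ℝ)))) = 1 / y := by
    rw [Real.rpow_neg hH0.le, hy, one_div, one_div]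
    congr 2
    unfold EE
    push_cast
    norm_num
  rw [hyinv, mul_one_div]
  have hV := Vo_nonneg Λ H
  have hK := K1_nonneg d
  have hKV := KV_nonneg d h RR.card RR'.card
  rcases le_total (K1 d) y with h1 | h1
  · refine (main_countL hd Λ S hh hm0 hm0' D D' hyH h1).trans ?_
    apply mul_le_mul_of_nonneg_right _ hV
    apply div_le_div_of_nonneg_right _ hy0.le
    linarith
  · refine (Cv_le _).trans ?_
    apply le_mul_of_one_le_left hV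
    rw [le_div_iff₀ hy0, one_mul]
    linarith

/-- the base points: the integer points where all members of degree at most `d - 4` vanish -/
def Bs (Λ : AddSubgroup (↥(Ix d) → ℤ)) : Set (ℤ × ℤ) :=
  {p | ∀ R ∈ Λ, TD (d - 4) (PG R) → ev p.1 p.2 (PG R) = 0}

lemma Bs_sw (Λ : AddSubgroup (↥(Ix d) → ℤ)) : Bs (swG Λ) = {q | (q.2, q.1) ∈ Bs Λ} := by
  ext q
  constructor
  · intro h R hR hT
    have h1 := h (sw R) (by rw [mem_swG, sw_sw]; exact hR) (TD_PG_sw hT)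
    rw [ev_sw] at h1
    exact h1
  · intro h R hR hT
    have h1 := h (sw R) hR (TD_PG_sw hT)
    rw [ev_sw] at h1
    exact h1

/-- the members of degree at most `k` -/
def lowM (Λ : AddSubgroup (↥(Ix d) → ℤ)) (k : ℕ) : Submodule ℤ (↥(Ix d) → ℤ) where
  carrier := {R | R ∈ Λ ∧ TD k (PG R)}
  zero_mem' := by
    refine ⟨Λ.zero_mem, ?_⟩
    rw [TD_PG_iff]
    intro j i _
    rw [cf]
    split_ifs <;> rfl
  add_mem' := by
    rintro a b ⟨ha, ha'⟩ ⟨hb, hb'⟩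
    refine ⟨Λ.add_mem ha hb, ?_⟩
    rw [TD_PG_iff] at ha' hb' ⊢
    intro j i hij
    have h1 := ha' j i hij
    have h2 := hb' j i hij
    rw [cf] at h1 h2 ⊢
    split_ifs at h1 h2 ⊢ with h3
    · rw [Pi.add_apply, h1, h2, add_zero]
    · rfl
  smul_mem' := by
    rintro t a ⟨ha, ha'⟩
    exact ⟨Λ.zsmul_mem ha t, TD_smul ha' t⟩

lemma ev_PG_add (c c' : ↥(Ix d) → ℤ) (a b : ℤ) :
    ev a b (PG (c + c')) = ev a b (PG c) + ev a b (PG c') := by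
  rw [PG_add, map_add]

lemma ev_PG_smul (c : ↥(Ix d) → ℤ) (t a b : ℤ) :
    ev a b (PG (t • c)) = t * ev a b (PG c) := by
  rw [PG_smul, map_mul, ev_C, evf_C]
  simp

/-- the vectors of the polynomials vanishing at a point -/
def vanM (Q : ℤ × ℤ) : Submodule ℤ (↥(Ix d) → ℤ) where
  carrier := {R | ev Q.1 Q.2 (PG R) = 0}
  zero_mem' := by
    have h := ev_PG_smul (0 : ↥(Ix d) → ℤ) 0 Q.1 Q.2
    rw [zero_smul, zero_mul] at h
    exact h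
  add_mem' := by
    intro a b ha hb
    show ev Q.1 Q.2 (PG (a + b)) = 0
    rw [ev_PG_add, show ev Q.1 Q.2 (PG a) = 0 from ha, show ev Q.1 Q.2 (PG b) = 0 from hb, add_zero]
  smul_mem' := by
    intro t a ha
    show ev Q.1 Q.2 (PG (t • a)) = 0
    rw [ev_PG_smul, show ev Q.1 Q.2 (PG a) = 0 from ha, mul_zero]

lemma ff_smul (t : ℤ) (R : ↥(Ix d) → ℤ) : ff (t • R) = C t * ff R := by
  show lead d (PG (t • R)) = _
  rw [PG_smul, lead_CC_mul]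
  rfl

theorem ddl_exists (hd : 4 ≤ d) (Λ : AddSubgroup (↥(Ix d) → ℤ))
    (h1 : ∀ k : Fin (d + 1), ∃ R ∈ Λ, ∃ m : ℤ, m ≠ 0 ∧ ff R = C m * X ^ (k : ℕ))
    (h2 : ∃ R ∈ Λ, ∃ m : ℤ, m ≠ 0 ∧ TD (d - 2) (PG R) ∧ lead (d - 2) (PG R) = C m) :
    ∃ (h0 : ℕ) (m0 : ℤ) (Rd : Fin (d + 1) → ↥(Ix d) → ℤ) (R2 : ↥(Ix d) → ℤ)
      (RR : Finset (↥(Ix d) → ℤ)), m0 ≠ 0 ∧ ∀ h, h0 ≤ h → DDL Λ (Bs Λ) h m0 Rd R2 RR := by
  classical
  choose R hR m hm hRm using h1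
  obtain ⟨Q, hQ, n, hn, hQT, hQn⟩ := h2
  obtain ⟨m0, hm0⟩ : ∃ m0 : ℤ, m0 = (∏ k, m k) * n := ⟨_, rfl⟩
  have hm00 : m0 ≠ 0 := by
    rw [hm0]
    exact mul_ne_zero (Finset.prod_ne_zero_iff.2 fun k _ => hm k) hn
  have hdvd : ∀ k, ∃ a : ℤ, a * m k = m0 := by
    intro k
    obtain ⟨a, ha⟩ : m k ∣ m0 := by
      rw [hm0]
      exact Dvd.dvd.mul_right (Finset.dvd_prod_of_mem m (Finset.mem_univ k)) n
    exact ⟨a, by rw [ha, mul_comm]⟩
  choose a ha using hdvd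
  obtain ⟨b, hb⟩ : ∃ b : ℤ, b * n = m0 := ⟨∏ k, m k, hm0.symm⟩
  obtain ⟨RR, hRR⟩ := (IsNoetherian.noetherian (lowM Λ (d - 4)) : (lowM Λ (d - 4)).FG)
  refine ⟨(∑ k, ht (a k • R k)) + ht (b • Q) + ∑ r ∈ RR, ht r, m0, fun k => a k • R k, b • Q, RR,
    hm00, ?_⟩
  intro h hh
  have hRRm : ∀ r ∈ RR, r ∈ Λ ∧ TD (d - 4) (PG r) := by
    intro r hr
    have h3 : r ∈ lowM Λ (d - 4) := by
      rw [← hRR]
      exact Submodule.subset_span hr
    exact h3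
  have hQT' : TD (d - 2) (PG (b • Q)) := TD_smul hQT b
  constructor
  · intro k
    refine ⟨Λ.zsmul_mem (hR k) _, ?_⟩
    intro i
    refine (le_ht _ i).trans ?_
    have h3 : ht (a k • R k) ≤ ∑ k, ht (a k • R k) :=
      Finset.single_le_sum (f := fun k => ht (a k • R k)) (fun _ _ => Nat.zero_le _)
        (Finset.mem_univ k)
    exact_mod_cast (by omega : ht (a k • R k) ≤ h)
  · intro k
    rw [ff_smul, hRm k, ← mul_assoc, ← C_mul, ha k]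
  · refine ⟨Λ.zsmul_mem hQ _, ?_⟩
    intro i
    refine (le_ht _ i).trans ?_
    exact_mod_cast (by omega : ht (b • Q) ≤ h)
  · exact lead_zero_of_TD hQT' (by omega)
  · exact lead_zero_of_TD hQT' (by omega)
  · rw [PG_smul, lead_CC_mul, hQn, ← C_mul, hb]
  · intro r hr
    refine ⟨⟨(hRRm r hr).1, ?_⟩, (hRRm r hr).2⟩
    intro i
    refine (le_ht _ i).trans ?_
    have h3 : ht r ≤ ∑ r ∈ RR, ht r :=
      Finset.single_le_sum (f := fun r => ht r) (fun _ _ => Nat.zero_le _) hr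
    exact_mod_cast (by omega : ht r ≤ h)
  · intro q hq
    by_contra hcon
    push Not at hcon
    apply hq
    intro r hr hT
    have h3 : lowM Λ (d - 4) ≤ vanM q := by
      rw [← hRR, Submodule.span_le]
      intro r hr
      exact hcon r hr
    exact h3 (show r ∈ lowM Λ (d - 4) from ⟨hr, hT⟩)

/-- **Almost all members of a linear system of plane curves have no integer point outside the base
points of its members of degree at most `d - 4`.** -/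
theorem vec_mainL (hd : 4 ≤ d) (Λ : AddSubgroup (↥(Ix d) → ℤ))
    (h1 : ∀ k : Fin (d + 1), ∃ R ∈ Λ, ∃ m : ℤ, m ≠ 0 ∧ ff R = C m * X ^ (k : ℕ))
    (h2 : ∃ R ∈ Λ, ∃ m : ℤ, m ≠ 0 ∧ TD (d - 2) (PG R) ∧ lead (d - 2) (PG R) = C m)
    (h2' : ∃ R ∈ swG Λ, ∃ m : ℤ, m ≠ 0 ∧ TD (d - 2) (PG R) ∧ lead (d - 2) (PG R) = C m) :
    ∃ K : ℝ, 0 ≤ K ∧ ∀ H : ℕ, 1 ≤ H →
    Cv Λ H (fun c : ↥(Ix d) → ℤ => ∃ p : ℤ × ℤ, p ∉ Bs Λ ∧ ev p.1 p.2 (PG c) = 0)
      ≤ K * (H : ℝ) ^ (-(1 / (10 ^ 4 * (d : ℝ)))) * Vo Λ H := by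
  have h1' : ∀ k : Fin (d + 1), ∃ R ∈ swG Λ, ∃ m : ℤ, m ≠ 0 ∧ ff R = C m * X ^ (k : ℕ) := by
    intro k
    obtain ⟨R, hR, m, hm, hRm⟩ := h1 ⟨d - k, by omega⟩
    refine ⟨sw R, by rw [mem_swG, sw_sw]; exact hR, m, hm, ?_⟩
    ext j
    rw [coeff_ff, cf_sw, coeff_C_mul, coeff_X_pow]
    by_cases hj : j ≤ d
    · have h3 := congrArg (fun f => coeff f (d - j)) hRm
      simp only [coeff_C_mul, coeff_X_pow] at h3
      rw [coeff_ff] at h3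
      have e : d - (d - j) = j := by omega
      rw [e] at h3
      rw [h3]
      have hk := k.2
      congr 2
      apply propext
      constructor
      · intro h; omega
      · intro h; omega
    · rw [cf_of_lt _ (by omega), if_neg (by have := k.2; omega), mul_zero]
  obtain ⟨a, m0, Rd, R2, RR, hm0, D⟩ := ddl_exists hd Λ h1 h2
  obtain ⟨a', m0', Rd', R2', RR', hm0', D'⟩ := ddl_exists hd (swG Λ) h1' h2'
  obtain ⟨h, hhd⟩ : ∃ h : ℕ, h = a + a' + 1 := ⟨_, rfl⟩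
  refine ⟨KV d h RR.card RR'.card + K1 d, ?_, ?_⟩
  · have := K1_nonneg d
    have := KV_nonneg d h RR.card RR'.card
    linarith
  · intro H hH
    have D1 := D' h (by omega)
    rw [Bs_sw] at D1
    exact vec_boundL hd Λ (Bs Λ) (by omega) hm0 hm0' (D h (by omega)) D1 hH

end Pool.Agent.TH728.EP
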